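import Mathlib

/-!
# Countable covers by cells of small oscillation, for Markov kernels
-/

open MeasureTheory Set Filter Topology ProbabilityTheory
open scoped ENNReal NNReal

set_option linter.unusedSectionVars false

namespace HostSn.H84

/-- `CC μ R`: `μ`-almost everything is covered by countably many measurable cells, the relation
`R` holding between any two points of a cell. -/
def CC {α : Type*} [MeasurableSpace α] (μ : Measure α) (R : α → α → Prop) : Prop :=
  ∃ G : ℕ → Set α, (∀ k, MeasurableSet (G k)) ∧ μ (⋃ k, G k)ᶜ = 0 ∧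
    ∀ k, ∀ x ∈ G k, ∀ y ∈ G k, R x y

section CC

variable {α : Type*} [MeasurableSpace α] {μ ν : Measure α} {R S : α → α → Prop}

theorem CC.mono (h : CC μ R) (hRS : ∀ x y, R x y → S x y) : CC μ S := by
  obtain ⟨G, h1, h2, h3⟩ := h
  exact ⟨G, h1, h2, fun k x hx y hy => hRS x y (h3 k x hx y hy)⟩

theorem CC.ac (h : CC μ R) (hν : ν ≪ μ) : CC ν R := by
  obtain ⟨G, h1, h2, h3⟩ := h
  exact ⟨G, h1, hν h2, h3⟩

theorem CC.of_pair {G : ℕ → ℕ → Set α} (h1 : ∀ i j, MeasurableSet (G i j))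
    (h2 : μ (⋃ i, ⋃ j, G i j)ᶜ = 0) (h3 : ∀ i j, ∀ x ∈ G i j, ∀ y ∈ G i j, R x y) : CC μ R := by
  refine ⟨fun k => G (Nat.unpair k).1 (Nat.unpair k).2, fun k => h1 _ _, ?_,
    fun k x hx y hy => h3 _ _ x hx y hy⟩
  have e : ⋃ k, G (Nat.unpair k).1 (Nat.unpair k).2 = ⋃ i, ⋃ j, G i j := by
    ext x
    simp only [mem_iUnion]
    constructor
    · rintro ⟨k, hk⟩
      exact ⟨_, _, hk⟩
    · rintro ⟨i, j, hij⟩
      exact ⟨Nat.pair i j, by simpa using hij⟩
  rw [e]
  exact h2

theorem CC.inter (h : CC μ R) (h' : CC μ S) : CC μ (fun x y => R x y ∧ S x y) := by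
  obtain ⟨G, h1, h2, h3⟩ := h
  obtain ⟨H, k1, k2, k3⟩ := h'
  refine CC.of_pair (G := fun i j => G i ∩ H j) (fun i j => (h1 i).inter (k1 j)) ?_
    (fun i j x hx y hy => ⟨h3 i x hx.1 y hy.1, k3 j x hx.2 y hy.2⟩)
  refine measure_mono_null ?_ (measure_union_null h2 k2)
  intro x hx
  by_contra hcon
  simp only [mem_union, not_or, notMem_compl_iff, mem_iUnion] at hcon
  obtain ⟨⟨i, hi⟩, ⟨j, hj⟩⟩ := hcon
  exact hx (mem_iUnion.2 ⟨i, mem_iUnion.2 ⟨j, hi, hj⟩⟩)

theorem CC.of_ae {p : α → Prop} (h : ∀ᵐ x ∂μ, p x) : CC μ (fun x y => p x ∧ p y) := by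
  refine ⟨fun _ => (toMeasurable μ {x | ¬ p x})ᶜ, fun _ => (measurableSet_toMeasurable _ _).compl,
    ?_, ?_⟩
  · rw [iUnion_const, compl_compl, measure_toMeasurable]
    exact ae_iff.1 h
  · intro _ x hx y hy
    have key : ∀ z, z ∈ (toMeasurable μ {x | ¬ p x})ᶜ → p z := by
      intro z hz
      by_contra hc
      exact hz (subset_toMeasurable μ _ hc)
    exact ⟨key x hx, key y hy⟩

end CC

section kernel

variable {X Y : Type*} [MeasurableSpace X] [PseudoMetricSpace X] [BorelSpace X]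
  [SecondCountableTopology X] [CompactSpace X] [Nonempty X]
  [MeasurableSpace Y] [PseudoMetricSpace Y] [BorelSpace Y]
  [SecondCountableTopology Y] [CompactSpace Y] [MeasurableSpace.CountablyGenerated Y]

theorem kernel_cover (κ : Kernel X Y) [IsMarkovKernel κ] (μ : Measure X) (ν : Measure Y)
    [IsFiniteMeasure μ] [IsFiniteMeasure ν] (h : ∀ᵐ x ∂μ, κ x ≪ ν) {ε : ℝ} (hε : 0 < ε) :
    CC μ (fun x x' => ∀ A, MeasurableSet A → |(κ x).real A - (κ x').real A| ≤ ε) := by
  classical
  set f : X → Y → ℝ≥0∞ := κ.rnDeriv (Kernel.const X ν) with hf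
  have hfm : Measurable (Function.uncurry f) := Kernel.measurable_rnDeriv κ (Kernel.const X ν)
  have h1 : ∀ᵐ x ∂μ, κ x = ν.withDensity (f x) := by
    filter_upwards [h] with x hx
    have h2 := Kernel.withDensity_rnDeriv_eq (κ := κ) (η := Kernel.const X ν) (a := x)
      (by simpa using hx)
    rw [Kernel.withDensity_apply _ hfm] at h2
    simpa using h2.symm
  set F : X × Y → ℝ := fun p => (f p.1 p.2).toReal with hF
  have hFm : Measurable F := hfm.ennreal_toReal
  have hint : ∀ᵐ x ∂μ, ∫⁻ y, f x y ∂ν = 1 := by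
    filter_upwards [h1] with x hx
    have : κ x univ = 1 := measure_univ
    rwa [hx, withDensity_apply _ MeasurableSet.univ, Measure.restrict_univ] at this
  have hF2 : Integrable F (μ.prod ν) := by
    refine ⟨hFm.aestronglyMeasurable, ?_⟩
    rw [HasFiniteIntegral, lintegral_prod _ (by fun_prop)]
    calc ∫⁻ x, ∫⁻ y, ‖F (x, y)‖ₑ ∂ν ∂μ ≤ ∫⁻ x, ∫⁻ y, f x y ∂ν ∂μ := by
          refine lintegral_mono fun x => lintegral_mono fun y => ?_
          simp only [hF]
          rw [Real.enorm_of_nonneg ENNReal.toReal_nonneg]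
          exact ENNReal.ofReal_toReal_le
      _ = ∫⁻ x, 1 ∂μ := lintegral_congr_ae hint
      _ < ∞ := by simp
  have hg : ∀ n : ℕ, ∃ g : BoundedContinuousFunction (X × Y) ℝ,
      ∫⁻ p, ‖F p - g p‖ₑ ∂(μ.prod ν) ≤ ((n : ℝ≥0∞) + 1)⁻¹ := by
    intro n
    obtain ⟨g, hg, _⟩ := hF2.exists_boundedContinuous_lintegral_sub_le
      (ε := ((n : ℝ≥0∞) + 1)⁻¹) (by simp)
    exact ⟨g, hg⟩
  choose g hg using hg
  set ε' : ℝ≥0∞ := ENNReal.ofReal (ε / 3) with hε'
  have hε'0 : ε' ≠ 0 := by simp [hε', hε]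
  set c : X → ℕ → ℝ≥0∞ := fun x n => ∫⁻ y, ‖F (x, y) - g n (x, y)‖ₑ ∂ν with hc
  have hcm : ∀ n, Measurable fun x => c x n := by
    intro n
    have : Measurable fun p : X × Y => ‖F p - g n p‖ₑ :=
      (hFm.sub (g n).continuous.measurable).enorm
    exact this.lintegral_prod_right'
  -- the good sets
  set A : ℕ → Set X := fun n => {x | c x n < ε'} with hA
  have hAm : ∀ n, MeasurableSet (A n) := fun n => measurableSet_lt (hcm n) measurable_const
  have hA0 : μ (⋃ n, A n)ᶜ = 0 := by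
    have h2 : ∀ n : ℕ, μ (⋃ n, A n)ᶜ ≤ ((n : ℝ≥0∞) + 1)⁻¹ / ε' := by
      intro n
      have h3 : (⋃ n, A n)ᶜ ⊆ {x | ε' ≤ c x n} := by
        intro x hx
        simp only [mem_compl_iff, mem_iUnion, not_exists, hA, mem_ofPred_eq, not_lt] at hx
        exact hx n
      refine (measure_mono h3).trans ?_
      refine (meas_ge_le_lintegral_div (hcm n).aemeasurable hε'0 (by simp [hε'])).trans ?_
      refine ENNReal.div_le_div_right ?_ _
      refine le_trans (le_of_eq ?_) (hg n)
      rw [lintegral_prod _ (by fun_prop)]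
    have h4 : Tendsto (fun n : ℕ => ((n : ℝ≥0∞) + 1)⁻¹ / ε') atTop (𝓝 0) := by
      have h5 : Tendsto (fun n : ℕ => (((n + 1 : ℕ) : ℝ≥0∞))⁻¹) atTop (𝓝 0) :=
        (tendsto_add_atTop_iff_nat 1).2 ENNReal.tendsto_inv_nat_nhds_zero
      have h6 := ENNReal.Tendsto.div_const (b := ε') h5 (Or.inr hε'0)
      simpa using h6
    exact le_antisymm (ge_of_tendsto' h4 h2) bot_le
  -- uniform continuity
  set M : ℝ≥0∞ := ν univ + 1 with hM
  have hMr : 0 < (ν univ).toReal + 1 := by positivity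
  have hδ : ∀ n, ∃ δ > 0, ∀ x x' : X, dist x x' < δ → ∀ y, ‖g n (x, y) - g n (x', y)‖ ≤
      ε / 3 / ((ν univ).toReal + 1) := by
    intro n
    have huc : UniformContinuous (g n) :=
      CompactSpace.uniformContinuous_of_continuous (g n).continuous
    obtain ⟨δ, hδ0, hδ⟩ := Metric.uniformContinuous_iff.1 huc
      (ε / 3 / ((ν univ).toReal + 1)) (by positivity)
    refine ⟨δ, hδ0, fun x x' hx y => ?_⟩
    have h3 := hδ (a := (x, y)) (b := (x', y)) (by
      rw [Prod.dist_eq, max_lt_iff]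
      exact ⟨hx, by simpa using hδ0⟩)
    rw [dist_eq_norm] at h3
    exact h3.le
  choose δ hδ0 hδ using hδ
  have h2 : CC μ (fun x x' => ∃ n, x ∈ A n ∧ x' ∈ A n ∧ dist x x' < δ n) := by
    refine CC.of_pair (G := fun i j => A i ∩ Metric.ball (TopologicalSpace.denseSeq X j) (δ i / 2))
      (fun i j => (hAm i).inter Metric.isOpen_ball.measurableSet) ?_ ?_
    · refine measure_mono_null ?_ hA0
      intro x hx
      by_contra hcon
      rw [notMem_compl_iff, mem_iUnion] at hcon
      obtain ⟨i, hi⟩ := hcon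
      obtain ⟨y, hy⟩ := (TopologicalSpace.denseRange_denseSeq X).exists_mem_open
        (Metric.isOpen_ball (x := x) (ε := δ i / 2)) ⟨x, Metric.mem_ball_self (half_pos (hδ0 i))⟩
      refine hx (mem_iUnion.2 ⟨i, mem_iUnion.2 ⟨y, hi, ?_⟩⟩)
      rw [Metric.mem_ball, dist_comm]
      exact hy
    · intro i j x hx y hy
      refine ⟨i, hx.1, hy.1, ?_⟩
      have := (dist_triangle_right x y (TopologicalSpace.denseSeq X j)).trans_lt
        (add_lt_add hx.2 hy.2)
      linarith
  have h3 := h2.inter (CC.of_ae (h1.and hint))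
  refine h3.mono ?_
  rintro x x' ⟨⟨n, hx, hx', hd⟩, ⟨hx1, hx2⟩, ⟨hx1', hx2'⟩⟩ B hB
  -- integrals
  have hI : ∀ z, ∫⁻ y, f z y ∂ν = 1 → Integrable (fun y => F (z, y)) ν := by
    intro z hz
    refine ⟨(hFm.comp measurable_prodMk_left).aestronglyMeasurable, ?_⟩
    rw [HasFiniteIntegral]
    refine lt_of_le_of_lt (lintegral_mono fun y => ?_) (hz.trans_lt ENNReal.one_lt_top)
    simp only [hF]
    rw [Real.enorm_of_nonneg ENNReal.toReal_nonneg]
    exact ENNReal.ofReal_toReal_le
  have hreal : ∀ z, κ z = ν.withDensity (f z) → ∫⁻ y, f z y ∂ν = 1 →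
      (κ z).real B = ∫ y in B, F (z, y) ∂ν := by
    intro z hz hz'
    have hfz : Measurable (f z) := hfm.comp measurable_prodMk_left
    rw [Measure.real, hz, withDensity_apply _ hB, integral_toReal]
    · exact hfz.aemeasurable
    · have h5 : ∫⁻ y in B, f z y ∂ν ≠ ∞ :=
        ((setLIntegral_le_lintegral _ _).trans_lt (hz'.trans_lt ENNReal.one_lt_top)).ne
      exact ae_lt_top' hfz.aemeasurable h5
  have hsmall : ∀ z, z ∈ A n → ∫ y, ‖F (z, y) - g n (z, y)‖ ∂ν ≤ ε / 3 := by
    intro z hz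
    have h5 : ∫⁻ y, ‖F (z, y) - g n (z, y)‖ₑ ∂ν < ε' := hz
    rw [integral_norm_eq_lintegral_enorm]
    · exact ENNReal.toReal_le_of_le_ofReal (by positivity) h5.le
    · exact ((hFm.comp measurable_prodMk_left).sub
        ((g n).continuous.measurable.comp measurable_prodMk_left)).aestronglyMeasurable
  have hgI : ∀ z, Integrable (fun y => g n (z, y)) ν := by
    intro z
    refine Integrable.of_bound ((g n).continuous.measurable.comp
      measurable_prodMk_left).aestronglyMeasurable ‖g n‖ ?_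
    exact Eventually.of_forall fun y => (g n).norm_coe_le_norm (z, y)
  have hmid : ∫ y, ‖g n (x, y) - g n (x', y)‖ ∂ν ≤ ε / 3 := by
    calc ∫ y, ‖g n (x, y) - g n (x', y)‖ ∂ν
        ≤ ∫ _, ε / 3 / ((ν univ).toReal + 1) ∂ν :=
          integral_mono ((hgI x).sub (hgI x')).norm (integrable_const _)
            (fun y => hδ n x x' hd y)
      _ = (ν univ).toReal * (ε / 3 / ((ν univ).toReal + 1)) := by
          rw [integral_const, smul_eq_mul, Measure.real]
      _ = ε / 3 * ((ν univ).toReal / ((ν univ).toReal + 1)) := by ring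
      _ ≤ ε / 3 * 1 := by
          refine mul_le_mul_of_nonneg_left ?_ (by positivity)
          rw [div_le_one hMr]
          linarith
      _ = ε / 3 := mul_one _
  have hIx := hI x hx2
  have hIx' := hI x' hx2'
  have hs1 := hsmall x hx
  have hs2 := hsmall x' hx'
  rw [hreal x hx1 hx2, hreal x' hx1' hx2', ← integral_sub hIx.integrableOn hIx'.integrableOn]
  calc |∫ y in B, (F (x, y) - F (x', y)) ∂ν| ≤ ∫ y in B, |F (x, y) - F (x', y)| ∂ν :=
        abs_integral_le_integral_abs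
    _ ≤ ∫ y, |F (x, y) - F (x', y)| ∂ν :=
        setIntegral_le_integral (hIx.sub hIx').abs (Eventually.of_forall fun _ => abs_nonneg _)
    _ ≤ ∫ y, (‖F (x, y) - g n (x, y)‖ + ‖g n (x, y) - g n (x', y)‖ +
        ‖F (x', y) - g n (x', y)‖) ∂ν := by
        refine integral_mono (hIx.sub hIx').abs
          ((((hIx.sub (hgI x)).norm).add ((hgI x).sub (hgI x')).norm).add
            (hIx'.sub (hgI x')).norm) fun y => ?_
        simp only [Real.norm_eq_abs]
        have e : F (x, y) - F (x', y) = (F (x, y) - g n (x, y)) + (g n (x, y) - g n (x', y)) +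
            -(F (x', y) - g n (x', y)) := by ring
        calc |F (x, y) - F (x', y)| = |(F (x, y) - g n (x, y)) + (g n (x, y) - g n (x', y)) +
            -(F (x', y) - g n (x', y))| := by rw [← e]
          _ ≤ |(F (x, y) - g n (x, y)) + (g n (x, y) - g n (x', y))| +
              |-(F (x', y) - g n (x', y))| := abs_add_le _ _
          _ ≤ _ := by
              rw [abs_neg]
              exact add_le_add (abs_add_le _ _) le_rfl
    _ = ∫ y, ‖F (x, y) - g n (x, y)‖ ∂ν + ∫ y, ‖g n (x, y) - g n (x', y)‖ ∂ν +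
        ∫ y, ‖F (x', y) - g n (x', y)‖ ∂ν := by
        rw [integral_add, integral_add]
        · exact (hIx.sub (hgI x)).norm
        · exact ((hgI x).sub (hgI x')).norm
        · exact ((hIx.sub (hgI x)).norm).add ((hgI x).sub (hgI x')).norm
        · exact (hIx'.sub (hgI x')).norm
    _ ≤ ε := by linarith

end kernel

end HostSn.H84
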