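import Mathlib

/-!
# Fourier uniqueness on the two dimensional torus, and transfer of absolute continuity
-/

open MeasureTheory Set Filter Topology BoundedContinuousFunction Submodule Algebra
open scoped ENNReal NNReal ComplexConjugate

set_option linter.unusedSectionVars false

namespace HostSn.H84

local instance : Fact ((0 : ℝ) < 1) := ⟨one_pos⟩

/-- the character `(x, y) ↦ e(m x + n y)` -/
noncomputable def chi (m n : ℤ) (p : UnitAddCircle × UnitAddCircle) : ℂ :=
  fourier m p.1 * fourier n p.2

theorem continuous_chi (m n : ℤ) : Continuous (chi m n) := by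
  unfold chi
  exact ((fourier m).continuous.comp continuous_fst).mul
    ((fourier n).continuous.comp continuous_snd)

theorem measurable_chi (m n : ℤ) : Measurable (chi m n) := (continuous_chi m n).measurable

theorem norm_fourier_apply (n : ℤ) (x : UnitAddCircle) : ‖fourier n x‖ = 1 := by
  rw [fourier_apply]
  exact Circle.norm_coe _

theorem norm_chi (m n : ℤ) (p : UnitAddCircle × UnitAddCircle) : ‖chi m n p‖ = 1 := by
  unfold chi
  rw [norm_mul, norm_fourier_apply, norm_fourier_apply, one_mul]

theorem chi_mul (m n m' n' : ℤ) (p : UnitAddCircle × UnitAddCircle) :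
    chi m n p * chi m' n' p = chi (m + m') (n + n') p := by
  unfold chi
  rw [fourier_add, fourier_add]
  ring

theorem conj_chi (m n : ℤ) (p : UnitAddCircle × UnitAddCircle) :
    conj (chi m n p) = chi (-m) (-n) p := by
  unfold chi
  rw [map_mul, fourier_neg, fourier_neg]

theorem chi_zero (p : UnitAddCircle × UnitAddCircle) : chi 0 0 p = 1 := by
  unfold chi
  simp

/-- the characters as bounded continuous functions -/
noncomputable def chiB (q : ℤ × ℤ) : (UnitAddCircle × UnitAddCircle) →ᵇ ℂ :=
  BoundedContinuousFunction.ofNormedAddCommGroup (chi q.1 q.2) (continuous_chi q.1 q.2) 1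
    fun p => (norm_chi q.1 q.2 p).le

theorem chiB_apply (q : ℤ × ℤ) (p : UnitAddCircle × UnitAddCircle) :
    chiB q p = chi q.1 q.2 p := rfl

noncomputable def chiAlg : StarSubalgebra ℂ ((UnitAddCircle × UnitAddCircle) →ᵇ ℂ) where
  toSubalgebra := Algebra.adjoin ℂ (range chiB)
  star_mem' := by
    change Algebra.adjoin ℂ (range chiB) ≤ star (Algebra.adjoin ℂ (range chiB))
    refine adjoin_le ?_
    rintro - ⟨q, rfl⟩
    refine subset_adjoin ⟨-q, ?_⟩
    ext p
    rw [chiB_apply, BoundedContinuousFunction.star_apply, chiB_apply]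
    exact (conj_chi q.1 q.2 p).symm

theorem chiAlg_coe : Subalgebra.toSubmodule chiAlg.toSubalgebra = span ℂ (range chiB) := by
  apply adjoin_eq_span_of_subset
  refine Subset.trans ?_ Submodule.subset_span
  intro x hx
  refine Submonoid.closure_induction (fun _ => id) ⟨0, ?_⟩ ?_ hx
  · ext p
    rw [chiB_apply]
    exact chi_zero p
  · rintro - - - - ⟨q, rfl⟩ ⟨r, rfl⟩
    refine ⟨q + r, ?_⟩
    ext p
    rw [BoundedContinuousFunction.mul_apply, chiB_apply, chiB_apply, chiB_apply]
    exact (chi_mul _ _ _ _ p).symm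

theorem chiAlg_separates :
    (chiAlg.map (toContinuousMapStarₐ ℂ)).SeparatesPoints := by
  intro p p' hpp
  have key : ∀ q : ℤ × ℤ, chiB q p ≠ chiB q p' → ∃ f ∈ ((fun f : C(UnitAddCircle × UnitAddCircle, ℂ) =>
      (f : UnitAddCircle × UnitAddCircle → ℂ)) '' ((chiAlg.map (toContinuousMapStarₐ ℂ)) :
        Set C(UnitAddCircle × UnitAddCircle, ℂ))), f p ≠ f p' := by
    intro q hq
    refine ⟨_, ⟨toContinuousMapStarₐ ℂ (chiB q), ?_, rfl⟩, hq⟩
    exact ⟨chiB q, subset_adjoin ⟨q, rfl⟩, rfl⟩
  by_cases h1 : p.1 = p'.1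
  · have h2 : p.2 ≠ p'.2 := fun h => hpp (Prod.ext h1 h)
    refine key (0, 1) ?_
    intro h
    rw [chiB_apply, chiB_apply] at h
    simp only [chi, fourier_zero, one_mul] at h
    rw [fourier_one, fourier_one] at h
    exact h2 (AddCircle.injective_toCircle one_ne_zero (Circle.ext h))
  · refine key (1, 0) ?_
    intro h
    rw [chiB_apply, chiB_apply] at h
    simp only [chi, fourier_zero, mul_one] at h
    rw [fourier_one, fourier_one] at h
    exact h1 (AddCircle.injective_toCircle one_ne_zero (Circle.ext h))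

theorem measure_ext_chi {μ ν : Measure (UnitAddCircle × UnitAddCircle)} [IsFiniteMeasure μ]
    [IsFiniteMeasure ν] (h : ∀ m n, ∫ p, chi m n p ∂μ = ∫ p, chi m n p ∂ν) : μ = ν := by
  refine ext_of_forall_mem_subalgebra_integral_eq_of_pseudoEMetric_complete_countable
    (𝕜 := ℂ) chiAlg_separates ?_
  intro g hg
  have hg' : g ∈ span ℂ (range chiB) := by
    rw [← chiAlg_coe]
    exact hg
  refine Submodule.span_induction (p := fun g _ => ∫ x, g x ∂μ = ∫ x, g x ∂ν) ?_ ?_ ?_ ?_ hg'
  · rintro - ⟨q, rfl⟩
    exact h q.1 q.2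
  · simp
  · intro f g _ _ hf hg
    simp only [BoundedContinuousFunction.add_apply]
    rw [integral_add (f.integrable μ) (g.integrable μ),
      integral_add (f.integrable ν) (g.integrable ν), hf, hg]
  · intro a f _ hf
    simp only [BoundedContinuousFunction.smul_apply, smul_eq_mul]
    rw [integral_const_mul, integral_const_mul, hf]

section transfer

variable {μ μ' : Measure (UnitAddCircle × UnitAddCircle)} [IsFiniteMeasure μ] [IsFiniteMeasure μ']
  (Φ : (UnitAddCircle × UnitAddCircle) ≃ᵐ (UnitAddCircle × UnitAddCircle))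

theorem integrable_chi_mul {ρ : Measure (UnitAddCircle × UnitAddCircle)}
    {Ψ : UnitAddCircle × UnitAddCircle → UnitAddCircle × UnitAddCircle} (hΨ : Measurable Ψ)
    {f : UnitAddCircle × UnitAddCircle → ℂ} (hf : Integrable f ρ) (m n : ℤ) :
    Integrable (fun p => chi m n (Ψ p) * f p) ρ := by
  refine hf.bdd_mul (c := 1) ((measurable_chi m n).comp hΨ).aestronglyMeasurable ?_
  exact Eventually.of_forall fun p => (norm_chi m n _).le

theorem integral_chi_withDensity {ρ : Measure (UnitAddCircle × UnitAddCircle)}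
    {Ψ : UnitAddCircle × UnitAddCircle → UnitAddCircle × UnitAddCircle} (hΨ : Measurable Ψ)
    {f : UnitAddCircle × UnitAddCircle → ℝ} (hf : Measurable f) (m n : ℤ) :
    ∫ p, chi m n p ∂((ρ.withDensity fun p => ENNReal.ofReal (f p)).map Ψ) =
      ∫ p, chi m n (Ψ p) * ((max (f p) 0 : ℝ) : ℂ) ∂ρ := by
  rw [integral_map hΨ.aemeasurable (measurable_chi m n).aestronglyMeasurable]
  have h1 := integral_withDensity_eq_integral_toReal_smul (μ := ρ)
    (f := fun p => ENNReal.ofReal (f p)) hf.ennreal_ofReal
    (Eventually.of_forall fun p => ENNReal.ofReal_lt_top) (fun p => chi m n (Ψ p))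
  rw [h1]
  congr 1
  ext p
  rw [ENNReal.toReal_ofReal', Complex.real_smul, mul_comm]

theorem transfer_real {f f' : UnitAddCircle × UnitAddCircle → ℝ} (hfm : Measurable f)
    (hfm' : Measurable f') (hf : Integrable f μ) (hf' : Integrable f' μ')
    (h : ∀ m n, ∫ p, chi m n (Φ p) * (f p : ℂ) ∂μ = ∫ p, chi m n p * (f' p : ℂ) ∂μ')
    {B : Set (UnitAddCircle × UnitAddCircle)} (hB : MeasurableSet B) :
    ∫ p in Φ ⁻¹' B, f p ∂μ = ∫ p in B, f' p ∂μ' := by
  have hneg : Integrable (fun p => - f p) μ := hf.neg
  have hneg' : Integrable (fun p => - f' p) μ' := hf'.neg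
  have hnm : Measurable (fun p => - f p) := hfm.neg
  have hnm' : Measurable (fun p => - f' p) := hfm'.neg
  have i1 : IsFiniteMeasure (μ.withDensity fun p => ENNReal.ofReal (f p)) :=
    isFiniteMeasure_withDensity_ofReal hf.2
  have i2 : IsFiniteMeasure (μ.withDensity fun p => ENNReal.ofReal (- f p)) :=
    isFiniteMeasure_withDensity_ofReal hneg.2
  have i3 : IsFiniteMeasure (μ'.withDensity fun p => ENNReal.ofReal (f' p)) :=
    isFiniteMeasure_withDensity_ofReal hf'.2
  have i4 : IsFiniteMeasure (μ'.withDensity fun p => ENNReal.ofReal (- f' p)) :=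
    isFiniteMeasure_withDensity_ofReal hneg'.2
  set M1 := (μ.withDensity fun p => ENNReal.ofReal (f p)).map Φ with hM1
  set M2 := (μ.withDensity fun p => ENNReal.ofReal (- f p)).map Φ with hM2
  set M3 := (μ'.withDensity fun p => ENNReal.ofReal (f' p)).map id with hM3
  set M4 := (μ'.withDensity fun p => ENNReal.ofReal (- f' p)).map id with hM4
  have hchi : ∀ (ρ : Measure (UnitAddCircle × UnitAddCircle)) [IsFiniteMeasure ρ] (m n : ℤ),
      Integrable (chi m n) ρ := by
    intro ρ _ m n
    exact Integrable.of_bound (measurable_chi m n).aestronglyMeasurable 1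
      (Eventually.of_forall fun p => (norm_chi m n p).le)
  have key : M1 + M4 = M2 + M3 := by
    refine measure_ext_chi fun m n => ?_
    rw [integral_add_measure (hchi M1 m n) (hchi M4 m n),
      integral_add_measure (hchi M2 m n) (hchi M3 m n), hM1, hM2, hM3, hM4,
      integral_chi_withDensity Φ.measurable hfm, integral_chi_withDensity Φ.measurable hnm,
      integral_chi_withDensity measurable_id hfm', integral_chi_withDensity measurable_id hnm']
    have e1 : ∫ p, chi m n (Φ p) * ((max (f p) 0 : ℝ) : ℂ) ∂μ -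
        ∫ p, chi m n (Φ p) * ((max (- f p) 0 : ℝ) : ℂ) ∂μ =
        ∫ p, chi m n (Φ p) * (f p : ℂ) ∂μ := by
      rw [← integral_sub]
      · congr 1
        ext p
        rw [← mul_sub, ← Complex.ofReal_sub]
        congr 2
        exact max_zero_sub_max_neg_zero_eq_self (f p)
      · exact integrable_chi_mul Φ.measurable (hf.pos_part.ofReal) m n
      · exact integrable_chi_mul Φ.measurable (hneg.pos_part.ofReal) m n
    have e2 : ∫ p, chi m n (id p) * ((max (f' p) 0 : ℝ) : ℂ) ∂μ' -
        ∫ p, chi m n (id p) * ((max (- f' p) 0 : ℝ) : ℂ) ∂μ' =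
        ∫ p, chi m n p * (f' p : ℂ) ∂μ' := by
      rw [← integral_sub]
      · congr 1
        ext p
        rw [← mul_sub, ← Complex.ofReal_sub]
        congr 2
        exact max_zero_sub_max_neg_zero_eq_self (f' p)
      · exact integrable_chi_mul measurable_id (hf'.pos_part.ofReal) m n
      · exact integrable_chi_mul measurable_id (hneg'.pos_part.ofReal) m n
    have e3 := h m n
    rw [← e1, ← e2] at e3
    linear_combination e3
  have k1 : (M1 + M4).real B = (M2 + M3).real B := by rw [key]
  rw [measureReal_add_apply, measureReal_add_apply] at k1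
  have hPhiB : MeasurableSet (Φ ⁻¹' B) := Φ.measurable hB
  have a1 : ∀ (ρ : Measure (UnitAddCircle × UnitAddCircle)) (g : UnitAddCircle × UnitAddCircle → ℝ)
      (_ : Measurable g) (_ : Integrable g ρ)
      (Ψ : UnitAddCircle × UnitAddCircle → UnitAddCircle × UnitAddCircle) (_ : Measurable Ψ),
      ((ρ.withDensity fun p => ENNReal.ofReal (g p)).map Ψ).real B =
        ∫ p in Ψ ⁻¹' B, max (g p) 0 ∂ρ := by
    intro ρ g hg _ Ψ hΨ
    rw [Measure.real, Measure.map_apply hΨ hB, withDensity_apply _ (hΨ hB),
      ← integral_toReal (hg.ennreal_ofReal.aemeasurable)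
        (Eventually.of_forall fun p => ENNReal.ofReal_lt_top)]
    simp only [ENNReal.toReal_ofReal']
  rw [hM1, hM2, hM3, hM4, a1 μ f hfm hf Φ Φ.measurable, a1 μ _ hnm hneg Φ Φ.measurable,
    a1 μ' f' hfm' hf' id measurable_id, a1 μ' _ hnm' hneg' id measurable_id] at k1
  simp only [preimage_id] at k1
  have e1 : ∫ p in Φ ⁻¹' B, f p ∂μ = ∫ p in Φ ⁻¹' B, max (f p) 0 ∂μ -
      ∫ p in Φ ⁻¹' B, max (- f p) 0 ∂μ := by
    rw [← integral_sub hf.pos_part.integrableOn hneg.pos_part.integrableOn]
    congr 1
    ext p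
    exact (max_zero_sub_max_neg_zero_eq_self (f p)).symm
  have e2 : ∫ p in B, f' p ∂μ' = ∫ p in B, max (f' p) 0 ∂μ' -
      ∫ p in B, max (- f' p) 0 ∂μ' := by
    rw [← integral_sub hf'.pos_part.integrableOn hneg'.pos_part.integrableOn]
    congr 1
    ext p
    exact (max_zero_sub_max_neg_zero_eq_self (f' p)).symm
  rw [e1, e2]
  linarith

theorem transfer_real_null {f f' : UnitAddCircle × UnitAddCircle → ℝ} (hfm : Measurable f)
    (hfm' : Measurable f') (hf : Integrable f μ) (hf' : Integrable f' μ')
    (h : ∀ m n, ∫ p, chi m n (Φ p) * (f p : ℂ) ∂μ = ∫ p, chi m n p * (f' p : ℂ) ∂μ')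
    {N : Set (UnitAddCircle × UnitAddCircle)} (hN : MeasurableSet N) (hN0 : μ' N = 0) :
    ∀ᵐ p ∂(μ.restrict (Φ ⁻¹' N)), f p = 0 := by
  refine Integrable.ae_eq_zero_of_forall_setIntegral_eq_zero hf.integrableOn ?_
  intro s hs _
  rw [Measure.restrict_restrict hs]
  have e : s ∩ Φ ⁻¹' N = Φ ⁻¹' (Φ.symm ⁻¹' s ∩ N) := by
    ext p
    simp
  rw [e, transfer_real Φ hfm hfm' hf hf' h ((Φ.symm.measurable hs).inter hN)]
  have h0 : μ' (Φ.symm ⁻¹' s ∩ N) = 0 := measure_mono_null inter_subset_right hN0
  rw [Measure.restrict_eq_zero.2 h0, integral_zero_measure]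

theorem transfer {k k' : UnitAddCircle × UnitAddCircle → ℂ} (hkm : Measurable k)
    (hkm' : Measurable k') (hk : Integrable k μ) (hk' : Integrable k' μ')
    (h : ∀ m n, ∫ p, chi m n (Φ p) * k p ∂μ = ∫ p, chi m n p * k' p ∂μ') :
    (μ.withDensity fun p => ‖k p‖ₑ).map Φ ≪ μ' := by
  have hc : ∀ m n, ∫ p, chi m n (Φ p) * conj (k p) ∂μ = ∫ p, chi m n p * conj (k' p) ∂μ' := by
    intro m n
    have h1 := congrArg conj (h (-m) (-n))
    rw [← integral_conj, ← integral_conj] at h1
    simpa only [map_mul, conj_chi, neg_neg] using h1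
  have hkc : Integrable (fun p => conj (k p)) μ := by
    refine hk.mono (Complex.continuous_conj.measurable.comp hkm).aestronglyMeasurable ?_
    exact Eventually.of_forall fun p => by simp
  have hkc' : Integrable (fun p => conj (k' p)) μ' := by
    refine hk'.mono (Complex.continuous_conj.measurable.comp hkm').aestronglyMeasurable ?_
    exact Eventually.of_forall fun p => by simp
  have hre : ∀ m n, ∫ p, chi m n (Φ p) * ((k p).re : ℂ) ∂μ =
      ∫ p, chi m n p * ((k' p).re : ℂ) ∂μ' := by
    intro m n
    have e : ∀ z w : ℂ, z * (w.re : ℂ) = (1 / 2) * (z * w + z * conj w) := by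
      intro z w
      rw [Complex.re_eq_add_conj]
      ring
    have i1 : Integrable (fun p => chi m n p * k' p) μ' := integrable_chi_mul measurable_id hk' m n
    have i2 : Integrable (fun p => chi m n p * conj (k' p)) μ' :=
      integrable_chi_mul measurable_id hkc' m n
    simp only [e]
    rw [integral_const_mul, integral_const_mul,
      integral_add (integrable_chi_mul Φ.measurable hk m n)
        (integrable_chi_mul Φ.measurable hkc m n),
      integral_add i1 i2, h m n, hc m n]
  have him : ∀ m n, ∫ p, chi m n (Φ p) * ((k p).im : ℂ) ∂μ =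
      ∫ p, chi m n p * ((k' p).im : ℂ) ∂μ' := by
    intro m n
    have e : ∀ z w : ℂ, z * (w.im : ℂ) = (1 / (2 * Complex.I)) * (z * w - z * conj w) := by
      intro z w
      rw [Complex.im_eq_sub_conj]
      ring
    have i1 : Integrable (fun p => chi m n p * k' p) μ' := integrable_chi_mul measurable_id hk' m n
    have i2 : Integrable (fun p => chi m n p * conj (k' p)) μ' :=
      integrable_chi_mul measurable_id hkc' m n
    simp only [e]
    rw [integral_const_mul, integral_const_mul,
      integral_sub (integrable_chi_mul Φ.measurable hk m n)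
        (integrable_chi_mul Φ.measurable hkc m n),
      integral_sub i1 i2, h m n, hc m n]
  refine Measure.AbsolutelyContinuous.mk fun N hN hN0 => ?_
  have r1 := transfer_real_null Φ (Complex.measurable_re.comp hkm) (Complex.measurable_re.comp hkm')
    hk.re hk'.re hre hN hN0
  have r2 := transfer_real_null Φ (Complex.measurable_im.comp hkm) (Complex.measurable_im.comp hkm')
    hk.im hk'.im him hN hN0
  rw [Measure.map_apply Φ.measurable hN, withDensity_apply _ (Φ.measurable hN)]
  rw [lintegral_eq_zero_iff hkm.enorm]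
  filter_upwards [r1, r2] with p h1 h2
  have : k p = 0 := Complex.ext h1 h2
  simp [this]

end transfer

end HostSn.H84
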