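import Pool.Agent.Lib.MP_8a5982_an.HO.H84.Host
import Pool.Agent.Lib.MP_8a5982_an.HO.H84.Four2

/-!
# The ergodic form of Host's lemma, for three functions
-/

open MeasureTheory Set Filter Topology
open scoped ENNReal NNReal ComplexConjugate InnerProductSpace

set_option linter.unusedSectionVars false

namespace HostSn.H84

local instance : Fact ((0 : ℝ) < 1) := ⟨one_pos⟩

section gram

variable {ι H₁ H₂ : Type*} [NormedAddCommGroup H₁] [InnerProductSpace ℂ H₁] [CompleteSpace H₁]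
  [NormedAddCommGroup H₂] [InnerProductSpace ℂ H₂]

theorem gram_norm {u : ι → H₁} {v : ι → H₂} (hG : ∀ i j, ⟪u i, u j⟫_ℂ = ⟪v i, v j⟫_ℂ)
    (x : ι →₀ ℂ) : ‖Finsupp.linearCombination ℂ u x‖ = ‖Finsupp.linearCombination ℂ v x‖ := by
  have h : ∀ x y : ι →₀ ℂ, ⟪Finsupp.linearCombination ℂ u x, Finsupp.linearCombination ℂ u y⟫_ℂ =
      ⟪Finsupp.linearCombination ℂ v x, Finsupp.linearCombination ℂ v y⟫_ℂ := by
    intro x y
    simp only [Finsupp.linearCombination_apply, Finsupp.sum_inner, Finsupp.inner_sum,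
      inner_smul_left, inner_smul_right, hG]
  have h2 := h x x
  rw [inner_self_eq_norm_sq_to_K, inner_self_eq_norm_sq_to_K] at h2
  have h3 : ‖Finsupp.linearCombination ℂ u x‖ ^ 2 = ‖Finsupp.linearCombination ℂ v x‖ ^ 2 := by
    exact_mod_cast h2
  exact (sq_eq_sq₀ (norm_nonneg _) (norm_nonneg _)).1 h3

theorem gram_repr {u : ι → H₁} {v : ι → H₂} (hG : ∀ i j, ⟪u i, u j⟫_ℂ = ⟪v i, v j⟫_ℂ)
    (w : H₂) : ∃ g : H₁, ∀ i, ⟪g, u i⟫_ℂ = ⟪w, v i⟫_ℂ := by
  set U := Finsupp.linearCombination ℂ u with hU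
  set V := Finsupp.linearCombination ℂ v with hV
  obtain ⟨s, hs⟩ := U.rangeRestrict.exists_rightInverse_of_surjective U.range_rangeRestrict
  have hs' : ∀ y : LinearMap.range U, U (s y) = y := by
    intro y
    have := LinearMap.congr_fun hs y
    exact congrArg Subtype.val this
  -- the functional on the range
  let f0 : LinearMap.range U →ₗ[ℂ] ℂ := ((innerSL ℂ w).toLinearMap.comp V).comp s
  have hf0 : ∀ y, ‖f0 y‖ ≤ ‖w‖ * ‖y‖ := by
    intro y
    have h1 : ‖f0 y‖ ≤ ‖w‖ * ‖V (s y)‖ := by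
      simp only [f0, LinearMap.comp_apply]
      exact norm_inner_le_norm _ _
    rw [← gram_norm hG (s y)] at h1
    rwa [← hU, hs' y] at h1
  let f1 : StrongDual ℂ (LinearMap.range U) := f0.mkContinuous ‖w‖ hf0
  obtain ⟨F, hF, _⟩ := exists_extension_norm_eq (LinearMap.range U) f1
  refine ⟨(InnerProductSpace.toDual ℂ H₁).symm F, fun i => ?_⟩
  rw [InnerProductSpace.toDual_symm_apply]
  have hi : U (Finsupp.single i 1) = u i := by
    simp [hU, Finsupp.linearCombination_single]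
  have hvi : V (Finsupp.single i 1) = v i := by
    simp [hV, Finsupp.linearCombination_single]
  have h1 := hF ⟨U (Finsupp.single i 1), LinearMap.mem_range_self U _⟩
  simp only [hi] at h1
  rw [h1]
  have hmem : u i ∈ LinearMap.range U := ⟨_, hi⟩
  have h2 : f1 ⟨u i, hmem⟩ = ⟪w, V (s ⟨u i, hmem⟩)⟫_ℂ := rfl
  rw [h2]
  have h3 : V (s ⟨u i, hmem⟩) = v i := by
    rw [← hvi, ← sub_eq_zero, ← map_sub, ← norm_eq_zero, ← gram_norm hG, norm_eq_zero, map_sub,
      ← hU, hs', hi, sub_self]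
  rw [h3]

end gram

section system

variable {Ω : Type*} [MeasurableSpace Ω] {P : Measure Ω} [IsProbabilityMeasure P]
  {τ : ℤ → Ω → Ω}

/-- `τ` is a measure preserving action of `ℤ`. -/
structure IsAction (P : Measure Ω) (τ : ℤ → Ω → Ω) : Prop where
  mp : ∀ k, MeasurePreserving (τ k) P P
  add : ∀ j k ω, τ (j + k) ω = τ j (τ k ω)
  zero : ∀ ω, τ 0 ω = ω

/-- `m` is the spectral measure of the function `a`. -/
def IsSpec (P : Measure Ω) (τ : ℤ → Ω → Ω) (a : Ω → ℂ) (m : Measure UnitAddCircle) : Prop :=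
  ∀ k : ℤ, ∫ x, (fourier k x : ℂ) ∂m = ∫ ω, a (τ k ω) * conj (a ω) ∂P

/-- the functions `a`, `b` have independent two-point products -/
def PairInd (P : Measure Ω) (τ : ℤ → Ω → Ω) (a b : Ω → ℂ) : Prop :=
  ∀ m m' n n' : ℤ, ∫ ω, (a (τ m ω) * conj (a (τ m' ω))) * (b (τ n ω) * conj (b (τ n' ω))) ∂P =
    (∫ ω, a (τ m ω) * conj (a (τ m' ω)) ∂P) * ∫ ω, b (τ n ω) * conj (b (τ n' ω)) ∂P

/-- bounded measurable functions -/
structure BM (a : Ω → ℂ) : Prop where
  meas : Measurable a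
  bdd : ∃ C : ℝ, ∀ ω, ‖a ω‖ ≤ C

theorem BM.mul {a b : Ω → ℂ} (ha : BM a) (hb : BM b) : BM (fun ω => a ω * b ω) := by
  obtain ⟨C, hC⟩ := ha.bdd
  obtain ⟨D, hD⟩ := hb.bdd
  refine ⟨ha.meas.mul hb.meas, |C| * |D|, fun ω => ?_⟩
  rw [norm_mul]
  exact mul_le_mul ((hC ω).trans (le_abs_self _)) ((hD ω).trans (le_abs_self _)) (norm_nonneg _)
    (abs_nonneg _)

theorem BM.conj {a : Ω → ℂ} (ha : BM a) : BM (fun ω => conj (a ω)) := by
  obtain ⟨C, hC⟩ := ha.bdd
  exact ⟨Complex.continuous_conj.measurable.comp ha.meas, C, fun ω => by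
    rw [RCLike.norm_conj]; exact hC ω⟩

theorem BM.comp {a : Ω → ℂ} (ha : BM a) {f : Ω → Ω} (hf : Measurable f) :
    BM (fun ω => a (f ω)) := by
  obtain ⟨C, hC⟩ := ha.bdd
  exact ⟨ha.meas.comp hf, C, fun ω => hC _⟩

theorem BM.integrable {a : Ω → ℂ} (ha : BM a) : Integrable a P := by
  obtain ⟨C, hC⟩ := ha.bdd
  exact Integrable.of_bound ha.meas.aestronglyMeasurable C (Eventually.of_forall hC)

theorem BM.memLp {a : Ω → ℂ} (ha : BM a) : MemLp a 2 P := by
  obtain ⟨C, hC⟩ := ha.bdd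
  exact MemLp.of_bound ha.meas.aestronglyMeasurable C (Eventually.of_forall hC)

theorem IsAction.integral_comp (hτ : IsAction P τ) (k : ℤ) {f : Ω → ℂ} (hf : Measurable f) :
    ∫ ω, f (τ k ω) ∂P = ∫ ω, f ω ∂P := by
  have h := integral_map (hτ.mp k).measurable.aemeasurable (f := f)
    (μ := P) hf.aestronglyMeasurable
  rw [(hτ.mp k).map_eq] at h
  exact h.symm

theorem IsSpec.two {a : Ω → ℂ} {m : Measure UnitAddCircle} (h : IsSpec P τ a m)
    (hτ : IsAction P τ) (ha : BM a) (j k : ℤ) :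
    ∫ ω, a (τ j ω) * conj (a (τ k ω)) ∂P = ∫ x, (fourier (j - k) x : ℂ) ∂m := by
  rw [h (j - k)]
  have h1 := hτ.integral_comp k (f := fun ω => a (τ (j - k) ω) * conj (a ω))
    (((ha.comp (hτ.mp (j - k)).measurable).mul ha.conj).meas)
  rw [← h1]
  congr 1
  ext ω
  rw [← hτ.add, sub_add_cancel]

theorem pair_repr {a b c : Ω → ℂ} (hτ : IsAction P τ) (ha : BM a) (hb : BM b) (hc : BM c)
    {ma mb : Measure UnitAddCircle} [IsFiniteMeasure ma] [IsFiniteMeasure mb]
    (hma : IsSpec P τ a ma) (hmb : IsSpec P τ b mb) (hab : PairInd P τ a b) :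
    ∃ k : UnitAddCircle × UnitAddCircle → ℂ, Measurable k ∧ Integrable k (ma.prod mb) ∧
      ∀ m n : ℤ, ∫ p, chi m n p * k p ∂(ma.prod mb) =
        ∫ ω, a (τ m ω) * b (τ n ω) * c ω ∂P := by
  have hchiL : ∀ q : ℤ × ℤ, MemLp (chi q.1 q.2) 2 (ma.prod mb) := fun q =>
    MemLp.of_bound (measurable_chi q.1 q.2).aestronglyMeasurable 1
      (Eventually.of_forall fun p => (norm_chi q.1 q.2 p).le)
  have hvB : ∀ q : ℤ × ℤ, BM (fun ω => a (τ q.1 ω) * b (τ q.2 ω)) := fun q =>
    (ha.comp (hτ.mp q.1).measurable).mul (hb.comp (hτ.mp q.2).measurable)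
  have hvL : ∀ q : ℤ × ℤ, MemLp (fun ω => a (τ q.1 ω) * b (τ q.2 ω)) 2 P := fun q => (hvB q).memLp
  have hwL : MemLp (fun ω => conj (c ω)) 2 P := hc.conj.memLp
  set u : ℤ × ℤ → Lp ℂ 2 (ma.prod mb) := fun q => (hchiL q).toLp _ with hu
  set v : ℤ × ℤ → Lp ℂ 2 P := fun q => (hvL q).toLp _ with hv
  set w : Lp ℂ 2 P := hwL.toLp _ with hw
  have hG : ∀ i j, ⟪u i, u j⟫_ℂ = ⟪v i, v j⟫_ℂ := by
    intro i j
    rw [L2.inner_def, L2.inner_def]
    have e1 : ∫ p, ⟪(u i : UnitAddCircle × UnitAddCircle → ℂ) p,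
        (u j : UnitAddCircle × UnitAddCircle → ℂ) p⟫_ℂ ∂(ma.prod mb) =
        ∫ p, fourier (j.1 - i.1) p.1 * fourier (j.2 - i.2) p.2 ∂(ma.prod mb) := by
      refine integral_congr_ae ?_
      filter_upwards [(hchiL i).coeFn_toLp, (hchiL j).coeFn_toLp] with p h1 h2
      simp only [hu]
      rw [h1, h2]
      have : ⟪chi i.1 i.2 p, chi j.1 j.2 p⟫_ℂ = chi j.1 j.2 p * conj (chi i.1 i.2 p) := by
        simp [RCLike.inner_apply]
      rw [this, conj_chi, chi_mul]
      rfl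
    have e2 : ∫ ω, ⟪(v i : Ω → ℂ) ω, (v j : Ω → ℂ) ω⟫_ℂ ∂P =
        ∫ ω, (a (τ j.1 ω) * conj (a (τ i.1 ω))) * (b (τ j.2 ω) * conj (b (τ i.2 ω))) ∂P := by
      refine integral_congr_ae ?_
      filter_upwards [(hvL i).coeFn_toLp, (hvL j).coeFn_toLp] with ω h1 h2
      simp only [hv]
      rw [h1, h2]
      simp only [RCLike.inner_apply, map_mul]
      ring
    rw [e1, e2, hab, hma.two hτ ha, hmb.two hτ hb,
      integral_prod_mul (fun x : UnitAddCircle => (fourier (j.1 - i.1) x : ℂ))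
        (fun y : UnitAddCircle => (fourier (j.2 - i.2) y : ℂ))]
  obtain ⟨g, hg⟩ := gram_repr hG w
  have hgm : StronglyMeasurable (g : UnitAddCircle × UnitAddCircle → ℂ) := Lp.stronglyMeasurable g
  have hgL : MemLp (g : UnitAddCircle × UnitAddCircle → ℂ) 2 (ma.prod mb) := Lp.memLp g
  refine ⟨fun p => conj (g p), Complex.continuous_conj.measurable.comp hgm.measurable, ?_, ?_⟩
  · have h1 : Integrable (g : UnitAddCircle × UnitAddCircle → ℂ) (ma.prod mb) :=
      hgL.integrable (by norm_num)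
    exact h1.mono (Complex.continuous_conj.measurable.comp hgm.measurable).aestronglyMeasurable
      (Eventually.of_forall fun p => by simp)
  · intro m n
    have h1 := hg (m, n)
    rw [L2.inner_def, L2.inner_def] at h1
    have e1 : ∫ p, ⟪(g : UnitAddCircle × UnitAddCircle → ℂ) p,
        (u (m, n) : UnitAddCircle × UnitAddCircle → ℂ) p⟫_ℂ ∂(ma.prod mb) =
        ∫ p, chi m n p * conj (g p) ∂(ma.prod mb) := by
      refine integral_congr_ae ?_
      filter_upwards [(hchiL (m, n)).coeFn_toLp] with p h1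
      simp only [hu]
      rw [h1]
      simp [RCLike.inner_apply]
    have e2 : ∫ ω, ⟪(w : Ω → ℂ) ω, (v (m, n) : Ω → ℂ) ω⟫_ℂ ∂P =
        ∫ ω, a (τ m ω) * b (τ n ω) * c ω ∂P := by
      refine integral_congr_ae ?_
      filter_upwards [(hvL (m, n)).coeFn_toLp, hwL.coeFn_toLp] with ω h1 h2
      simp only [hv, hw]
      rw [h1, h2]
      simp [RCLike.inner_apply]
    rw [← e1, h1, e2]

/-- `(x, y) ↦ (x, -(x + y))` -/
noncomputable def phi13 : (UnitAddCircle × UnitAddCircle) ≃ᵐ (UnitAddCircle × UnitAddCircle) where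
  toFun p := (p.1, -(p.1 + p.2))
  invFun p := (p.1, -(p.1 + p.2))
  left_inv p := by ext <;> simp
  right_inv p := by ext <;> simp
  measurable_toFun := measurable_fst.prodMk (measurable_fst.add measurable_snd).neg
  measurable_invFun := measurable_fst.prodMk (measurable_fst.add measurable_snd).neg

/-- `(x, y) ↦ (y, -(x + y))` -/
noncomputable def phi23 : (UnitAddCircle × UnitAddCircle) ≃ᵐ (UnitAddCircle × UnitAddCircle) where
  toFun p := (p.2, -(p.1 + p.2))
  invFun p := (-(p.1 + p.2), p.1)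
  left_inv p := by ext <;> simp
  right_inv p := by ext <;> simp
  measurable_toFun := measurable_snd.prodMk (measurable_fst.add measurable_snd).neg
  measurable_invFun := (measurable_fst.add measurable_snd).neg.prodMk measurable_fst

theorem fourier_neg_add (n : ℤ) (x y : UnitAddCircle) :
    (fourier n (-(x + y)) : ℂ) = fourier (-n) x * fourier (-n) y := by
  rw [fourier_apply, fourier_apply, fourier_apply, smul_neg, ← neg_smul, smul_add,
    AddCircle.toCircle_add]
  simp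

theorem chi_phi13 (m n : ℤ) (p : UnitAddCircle × UnitAddCircle) :
    chi m n (phi13 p) = chi (m - n) (-n) p := by
  have h : chi m n (phi13 p) = fourier m p.1 * fourier n (-(p.1 + p.2)) := rfl
  rw [h, fourier_neg_add, ← mul_assoc, ← fourier_add]
  rfl

theorem chi_phi23 (m n : ℤ) (p : UnitAddCircle × UnitAddCircle) :
    chi m n (phi23 p) = chi (-n) (m - n) p := by
  have h : chi m n (phi23 p) = fourier m p.2 * fourier n (-(p.1 + p.2)) := rfl
  rw [h, fourier_neg_add]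
  have h2 : chi (-n) (m - n) p = fourier (-n) p.1 * fourier (m - n) p.2 := rfl
  rw [h2, sub_eq_add_neg, fourier_add]
  ring

/-- **Host's lemma**, for three bounded functions. -/
theorem eh {a b c : Ω → ℂ} (hτ : IsAction P τ) (ha : BM a) (hb : BM b) (hc : BM c)
    {ma mb mc : Measure UnitAddCircle} [IsFiniteMeasure ma] [IsFiniteMeasure mb]
    [IsFiniteMeasure mc] (hma : IsSpec P τ a ma) (hmb : IsSpec P τ b mb) (hmc : IsSpec P τ c mc)
    (hab : PairInd P τ a b) (hac : PairInd P τ a c) (hbc : PairInd P τ b c)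
    (hc0 : NullSingletonClass mc) (hs : mc ⟂ₘ (volume : Measure UnitAddCircle)) :
    ∫ ω, a ω * b ω * c ω ∂P = 0 := by
  obtain ⟨k12, hk12m, hk12i, hk12⟩ := pair_repr hτ ha hb hc hma hmb hab
  obtain ⟨k13, hk13m, hk13i, hk13⟩ := pair_repr hτ ha hc hb hma hmc hac
  obtain ⟨k23, hk23m, hk23i, hk23⟩ := pair_repr hτ hb hc ha hmb hmc hbc
  have hM : ∀ i j k : ℤ, Measurable fun ω => a (τ i ω) * b (τ j ω) * c (τ k ω) := fun i j k =>
    (((ha.comp (hτ.mp i).measurable).mul (hb.comp (hτ.mp j).measurable)).mul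
      (hc.comp (hτ.mp k).measurable)).meas
  have t13 : (((ma.prod mb).withDensity fun p => ‖k12 p‖ₑ).map phi13) ≪ ma.prod mc := by
    refine transfer phi13 hk12m hk13m hk12i hk13i fun m n => ?_
    simp only [chi_phi13]
    rw [hk12, hk13]
    have h1 := hτ.integral_comp n (hM (m - n) (-n) 0)
    simp only [← hτ.add, hτ.zero] at h1
    rw [← h1]
    congr 1
    ext ω
    rw [sub_add_cancel, neg_add_cancel, zero_add, hτ.zero]
    ring
  have t23 : (((ma.prod mb).withDensity fun p => ‖k12 p‖ₑ).map phi23) ≪ mb.prod mc := by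
    refine transfer phi23 hk12m hk23m hk12i hk23i fun m n => ?_
    simp only [chi_phi23]
    rw [hk12, hk23]
    have h1 := hτ.integral_comp n (hM (-n) (m - n) 0)
    simp only [← hτ.add, hτ.zero] at h1
    rw [← h1]
    congr 1
    ext ω
    rw [sub_add_cancel, neg_add_cancel, zero_add, hτ.zero]
    ring
  have hfin : IsFiniteMeasure ((ma.prod mb).withDensity fun p => ‖k12 p‖ₑ) :=
    isFiniteMeasure_withDensity hk12i.2.ne
  have h0 := hostlem ma mb mc ((ma.prod mb).withDensity fun p => ‖k12 p‖ₑ)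
    (withDensity_absolutelyContinuous _ _) t13 t23 hc0 hs
  have h1 : ∀ᵐ p ∂(ma.prod mb), k12 p = 0 := by
    rw [withDensity_eq_zero_iff hk12m.enorm.aemeasurable] at h0
    filter_upwards [h0] with p hp
    simpa using hp
  have h2 := hk12 0 0
  simp only [hτ.zero] at h2
  rw [← h2]
  refine integral_eq_zero_of_ae ?_
  filter_upwards [h1] with p hp
  simp [hp]

end system

end HostSn.H84
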