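import Pool.Agent.Lib.MP_8a5982_an.HO.H84.EH

/-!
# Existence of the spectral measure of a bounded function (Herglotz)
-/

open MeasureTheory Set Filter Topology BoundedContinuousFunction
open scoped ENNReal NNReal ComplexConjugate

set_option linter.unusedSectionVars false

namespace HostSn.H84

local instance : Fact ((0 : ℝ) < 1) := ⟨one_pos⟩

theorem integral_fourier_volume (k : ℤ) :
    ∫ x : UnitAddCircle, (fourier k x : ℂ) = if k = 0 then 1 else 0 := by
  split_ifs with h
  · subst h
    have : (volume : Measure UnitAddCircle) univ = 1 := UnitAddCircle.measure_univ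
    simp [Measure.real, this]
  · exact integral_eq_zero_of_add_right_eq_neg (μ := volume) (fourier_add_half_inv_index h one_pos)

/-- number of pairs with a given difference -/
noncomputable def cnt (N : ℕ) (k : ℤ) : ℂ :=
  ∑ i ∈ Finset.range N, ∑ j ∈ Finset.range N, if (i : ℤ) - j = k then (1 : ℂ) else 0

theorem cnt_eq (N : ℕ) (k : ℤ) :
    cnt N k = (((Finset.range N ×ˢ Finset.range N).filter
      (fun p : ℕ × ℕ => (p.1 : ℤ) - p.2 = k)).card : ℂ) := by
  rw [cnt, ← Finset.sum_product', Finset.sum_boole]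

theorem cnt_bounds (N : ℕ) (k : ℤ) :
    N ≤ ((Finset.range N ×ˢ Finset.range N).filter
      (fun p : ℕ × ℕ => (p.1 : ℤ) - p.2 = k)).card + k.natAbs ∧
    ((Finset.range N ×ˢ Finset.range N).filter
      (fun p : ℕ × ℕ => (p.1 : ℤ) - p.2 = k)).card ≤ N := by
  constructor
  · have h1 : (Finset.range (N - k.natAbs)).card ≤ ((Finset.range N ×ˢ Finset.range N).filter
        (fun p : ℕ × ℕ => (p.1 : ℤ) - p.2 = k)).card := by
      refine Finset.card_le_card_of_injOn (fun j => (j + k.toNat, j + (-k).toNat)) ?_ ?_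
      · intro j hj
        simp only [Finset.coe_range, mem_Iio] at hj
        simp only [Finset.coe_filter, Finset.mem_product, Finset.mem_range, mem_ofPred_eq]
        omega
      · intro j _ j' _ h
        simp only [Prod.mk.injEq] at h
        omega
    rw [Finset.card_range] at h1
    omega
  · have h1 : ((Finset.range N ×ˢ Finset.range N).filter
        (fun p : ℕ × ℕ => (p.1 : ℤ) - p.2 = k)).card ≤ (Finset.range N).card := by
      refine Finset.card_le_card_of_injOn (fun p => p.1) ?_ ?_
      · intro p hp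
        simp only [Finset.coe_filter, Finset.mem_product, Finset.mem_range, mem_ofPred_eq] at hp
        simp only [Finset.coe_range, mem_Iio]
        exact hp.1.1
      · intro p hp q hq h
        simp only [Finset.coe_filter, Finset.mem_product, Finset.mem_range, mem_ofPred_eq] at hp hq
        simp only at h
        ext
        · exact h
        · omega
    rwa [Finset.card_range] at h1

theorem tendsto_cnt (k : ℤ) : Tendsto (fun N : ℕ => cnt (N + 1) k / ((N + 1 : ℕ) : ℂ)) atTop
    (𝓝 1) := by
  have h0 : Tendsto (fun N : ℕ => ((k.natAbs : ℝ)) / ((N + 1 : ℕ) : ℝ)) atTop (𝓝 0) :=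
    (tendsto_const_div_atTop_nhds_zero_nat _).comp (tendsto_add_atTop_nat 1)
  rw [tendsto_iff_norm_sub_tendsto_zero]
  refine squeeze_zero (fun _ => norm_nonneg _) (fun N => ?_) h0
  have hN : (0 : ℝ) < ((N + 1 : ℕ) : ℝ) := by positivity
  have hN' : ((N + 1 : ℕ) : ℂ) ≠ 0 := by exact_mod_cast (Nat.succ_ne_zero N)
  obtain ⟨h1, h2⟩ := cnt_bounds (N + 1) k
  rw [cnt_eq, div_sub_one hN', norm_div, Complex.norm_natCast]
  refine div_le_div_of_nonneg_right ?_ hN.le
  set c := ((Finset.range (N + 1) ×ˢ Finset.range (N + 1)).filter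
      (fun p : ℕ × ℕ => (p.1 : ℤ) - p.2 = k)).card with hc
  have e : (c : ℂ) - ((N + 1 : ℕ) : ℂ) = ((-(((N + 1 : ℕ) : ℝ) - (c : ℝ)) : ℝ) : ℂ) := by
    push_cast; ring
  rw [e, Complex.norm_real, norm_neg, Real.norm_eq_abs, abs_of_nonneg]
  · have : ((N + 1 : ℕ) : ℝ) ≤ (c : ℝ) + (k.natAbs : ℝ) := by exact_mod_cast h1
    linarith
  · have : (c : ℝ) ≤ ((N + 1 : ℕ) : ℝ) := by exact_mod_cast h2
    linarith

variable {Ω : Type*} [MeasurableSpace Ω] {P : Measure Ω} [IsProbabilityMeasure P]
  {τ : ℤ → Ω → Ω}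

/-- correlations -/
noncomputable def corr (P : Measure Ω) (τ : ℤ → Ω → Ω) (a : Ω → ℂ) (k : ℤ) : ℂ :=
  ∫ ω, a (τ k ω) * conj (a ω) ∂P

theorem corr_two (hτ : IsAction P τ) {a : Ω → ℂ} (ha : BM a) (j k : ℤ) :
    ∫ ω, a (τ j ω) * conj (a (τ k ω)) ∂P = corr P τ a (j - k) := by
  have h1 := hτ.integral_comp k (f := fun ω => a (τ (j - k) ω) * conj (a ω))
    (((ha.comp (hτ.mp (j - k)).measurable).mul ha.conj).meas)
  rw [corr, ← h1]
  congr 1
  ext ω
  rw [← hτ.add, sub_add_cancel]

/-- the Fejer density -/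
noncomputable def fej (P : Measure Ω) (τ : ℤ → Ω → Ω) (a : Ω → ℂ) (N : ℕ) (x : UnitAddCircle) :
    ℝ :=
  (∫ ω, ‖∑ j ∈ Finset.range N, (fourier (-(j : ℤ)) x : ℂ) * a (τ j ω)‖ ^ 2 ∂P) / N

theorem fej_nonneg (a : Ω → ℂ) (N : ℕ) (x : UnitAddCircle) : 0 ≤ fej P τ a N x :=
  div_nonneg (integral_nonneg fun _ => by positivity) (Nat.cast_nonneg _)

theorem fej_eq (hτ : IsAction P τ) {a : Ω → ℂ} (ha : BM a) (N : ℕ) (x : UnitAddCircle) :
    (fej P τ a N x : ℂ) = (∑ i ∈ Finset.range N, ∑ j ∈ Finset.range N,
      (fourier ((j : ℤ) - i) x : ℂ) * corr P τ a (i - j)) / N := by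
  rw [fej, Complex.ofReal_div, Complex.ofReal_natCast, ← integral_complex_ofReal]
  congr 1
  have e : ∀ ω, ((‖∑ j ∈ Finset.range N, (fourier (-(j : ℤ)) x : ℂ) * a (τ j ω)‖ ^ 2 : ℝ) : ℂ) =
      ∑ i ∈ Finset.range N, ∑ j ∈ Finset.range N,
        (fourier ((j : ℤ) - i) x : ℂ) * (a (τ i ω) * conj (a (τ j ω))) := by
    intro ω
    rw [Complex.ofReal_pow, ← Complex.mul_conj', map_sum, Finset.sum_mul_sum]
    refine Finset.sum_congr rfl fun i _ => Finset.sum_congr rfl fun j _ => ?_
    rw [map_mul, sub_eq_add_neg, fourier_add, fourier_neg, fourier_neg,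
      Complex.conj_conj]
    ring
  simp only [e]
  rw [integral_finsetSum]
  · refine Finset.sum_congr rfl fun i _ => ?_
    rw [integral_finsetSum]
    · refine Finset.sum_congr rfl fun j _ => ?_
      rw [integral_const_mul, corr_two hτ ha]
    · intro j _
      exact (((ha.comp (hτ.mp i).measurable).mul (ha.comp (hτ.mp j).measurable).conj).integrable).const_mul _
  · intro i _
    refine integrable_finsetSum _ fun j _ => ?_
    exact (((ha.comp (hτ.mp i).measurable).mul (ha.comp (hτ.mp j).measurable).conj).integrable).const_mul _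

theorem continuous_fej (hτ : IsAction P τ) {a : Ω → ℂ} (ha : BM a) (N : ℕ) :
    Continuous (fej P τ a N) := by
  have h1 : Continuous fun x => (fej P τ a N x : ℂ) := by
    simp only [fej_eq hτ ha]
    fun_prop
  have h2 : fej P τ a N = fun x => ((fej P τ a N x : ℂ)).re := by
    ext x
    simp
  rw [h2]
  exact Complex.continuous_re.comp h1

theorem integral_fej (hτ : IsAction P τ) {a : Ω → ℂ} (ha : BM a) (N : ℕ) (k : ℤ) :
    ∫ x : UnitAddCircle, (fourier k x : ℂ) * (fej P τ a N x : ℂ) =
      corr P τ a k * (cnt N k / N) := by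
  simp only [fej_eq hτ ha]
  have e : ∀ x : UnitAddCircle, (fourier k x : ℂ) * ((∑ i ∈ Finset.range N, ∑ j ∈ Finset.range N,
      (fourier ((j : ℤ) - i) x : ℂ) * corr P τ a (i - j)) / N) =
      (∑ i ∈ Finset.range N, ∑ j ∈ Finset.range N,
        (fourier (k + ((j : ℤ) - i)) x : ℂ) * corr P τ a (i - j)) / N := by
    intro x
    rw [mul_div_assoc', Finset.mul_sum]
    congr 1
    refine Finset.sum_congr rfl fun i _ => ?_
    rw [Finset.mul_sum]
    refine Finset.sum_congr rfl fun j _ => ?_
    rw [fourier_add]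
    ring
  simp only [e]
  rw [integral_div]
  have hint : ∀ i j : ℕ, Integrable (fun x : UnitAddCircle =>
      (fourier (k + ((j : ℤ) - i)) x : ℂ) * corr P τ a (i - j)) volume := by
    intro i j
    refine Integrable.mul_const ?_ _
    exact Integrable.of_bound (fourier _).continuous.measurable.aestronglyMeasurable 1
      (Eventually.of_forall fun x => (norm_fourier_apply _ x).le)
  rw [integral_finsetSum _ (fun i _ => integrable_finsetSum _ fun j _ => hint i j)]
  have e2 : ∀ i ∈ Finset.range N, ∫ x : UnitAddCircle, ∑ j ∈ Finset.range N,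
      (fourier (k + ((j : ℤ) - i)) x : ℂ) * corr P τ a (i - j) =
      ∑ j ∈ Finset.range N, (if (i : ℤ) - j = k then (1 : ℂ) else 0) * corr P τ a k := by
    intro i _
    rw [integral_finsetSum _ (fun j _ => hint i j)]
    refine Finset.sum_congr rfl fun j _ => ?_
    rw [integral_mul_const, integral_fourier_volume]
    by_cases h : (i : ℤ) - j = k
    · rw [if_pos h, if_pos (by omega), h]
    · rw [if_neg h, if_neg (by omega), zero_mul, zero_mul]
  rw [Finset.sum_congr rfl e2, cnt]
  simp only [← Finset.sum_mul]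
  ring

/-- the mean square of `a` -/
theorem corr_zero (hτ : IsAction P τ) (a : Ω → ℂ) :
    corr P τ a 0 = ((∫ ω, ‖a ω‖ ^ 2 ∂P : ℝ) : ℂ) := by
  rw [corr, ← integral_complex_ofReal]
  congr 1
  ext ω
  rw [hτ.zero, Complex.mul_conj', Complex.ofReal_pow]

theorem cnt_zero (N : ℕ) : cnt N 0 = N := by
  rw [cnt_eq]
  have : ((Finset.range N ×ˢ Finset.range N).filter
      (fun p : ℕ × ℕ => (p.1 : ℤ) - p.2 = 0)).card = N := by
    obtain ⟨h1, h2⟩ := cnt_bounds N 0
    simp only [Int.natAbs_zero, add_zero] at h1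
    exact le_antisymm h2 h1
  rw [this]

theorem integral_fourier_fejMeasure (hτ : IsAction P τ) {a : Ω → ℂ} (ha : BM a) (N : ℕ) (k : ℤ) :
    ∫ x, (fourier k x : ℂ) ∂((volume : Measure UnitAddCircle).withDensity
      fun x => ENNReal.ofReal (fej P τ a N x)) = corr P τ a k * (cnt N k / N) := by
  rw [integral_withDensity_eq_integral_toReal_smul (continuous_fej hτ ha N).measurable.ennreal_ofReal
    (Eventually.of_forall fun _ => ENNReal.ofReal_lt_top), ← integral_fej hτ ha N k]
  congr 1
  ext x
  rw [ENNReal.toReal_ofReal (fej_nonneg a N x), Complex.real_smul, mul_comm]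

/-- **Herglotz**: the spectral measure of a bounded function exists. -/
theorem exists_spec (hτ : IsAction P τ) {a : Ω → ℂ} (ha : BM a) :
    ∃ m : Measure UnitAddCircle, IsFiniteMeasure m ∧ IsSpec P τ a m := by
  set r0 : ℝ := ∫ ω, ‖a ω‖ ^ 2 ∂P with hr0
  have hr0n : 0 ≤ r0 := integral_nonneg fun _ => by positivity
  have hc0 : corr P τ a 0 = (r0 : ℂ) := corr_zero hτ a
  rcases hr0n.eq_or_lt with h0 | hpos
  · -- trivial case
    refine ⟨0, inferInstance, fun k => ?_⟩
    have h1 : ∀ᵐ ω ∂P, ‖a ω‖ ^ 2 = 0 := by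
      have hint : Integrable (fun ω => ‖a ω‖ ^ 2) P := by
        obtain ⟨C, hC⟩ := ha.bdd
        refine Integrable.of_bound (ha.meas.norm.pow_const 2).aestronglyMeasurable (C ^ 2) ?_
        refine Eventually.of_forall fun ω => ?_
        rw [Real.norm_of_nonneg (by positivity)]
        exact pow_le_pow_left₀ (norm_nonneg _) (hC ω) 2
      exact (integral_eq_zero_iff_of_nonneg (fun _ => by positivity) hint).1 h0.symm
    rw [integral_zero_measure]
    symm
    refine integral_eq_zero_of_ae ?_
    filter_upwards [h1] with ω hω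
    have : a ω = 0 := by simpa using hω
    simp [this]
  · -- normalised Fejer measures
    set c : ℝ≥0∞ := (ENNReal.ofReal r0)⁻¹ with hc
    have hr0' : ENNReal.ofReal r0 ≠ 0 := by simpa using hpos
    have hctop : c ≠ ∞ := by simpa [hc] using hpos
    set M : ℕ → Measure UnitAddCircle := fun N => (volume : Measure UnitAddCircle).withDensity
      fun x => ENNReal.ofReal (fej P τ a (N + 1) x) with hM
    have hmass : ∀ N, M N univ = ENNReal.ofReal r0 := by
      intro N
      have hcont := continuous_fej hτ ha (N + 1)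
      have hint : Integrable (fej P τ a (N + 1)) (volume : Measure UnitAddCircle) :=
        hcont.integrable_of_hasCompactSupport (HasCompactSupport.of_compactSpace _)
      simp only [hM]
      rw [withDensity_apply _ MeasurableSet.univ, Measure.restrict_univ,
        ← ofReal_integral_eq_lintegral_ofReal hint (Eventually.of_forall (fej_nonneg a _))]
      congr 1
      have h2 := integral_fej hτ ha (N + 1) 0
      simp only [fourier_zero, one_mul] at h2
      rw [cnt_zero, div_self (by exact_mod_cast Nat.succ_ne_zero N), mul_one, hc0,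
        integral_complex_ofReal] at h2
      exact_mod_cast h2
    have hprob : ∀ N, IsProbabilityMeasure (c • M N) := by
      intro N
      refine ⟨?_⟩
      rw [Measure.smul_apply, hmass, hc, smul_eq_mul]
      exact ENNReal.inv_mul_cancel hr0' ENNReal.ofReal_ne_top
    set μs : ℕ → ProbabilityMeasure UnitAddCircle := fun N => ⟨c • M N, hprob N⟩ with hμs
    obtain ⟨ν, -, hν⟩ := (isCompact_univ (X := ProbabilityMeasure UnitAddCircle)).ultrafilter_le_nhds
      ((Filter.hyperfilter ℕ).map μs) (by simp)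
    have hν' : Tendsto μs (Filter.hyperfilter ℕ : Filter ℕ) (𝓝 ν) := hν
    rw [ProbabilityMeasure.tendsto_iff_forall_integral_rclike_tendsto ℂ] at hν'
    have hle : (Filter.hyperfilter ℕ : Filter ℕ) ≤ atTop := by
      rw [← Nat.cofinite_eq_atTop]
      exact Filter.hyperfilter_le_cofinite
    have hlim : ∀ k : ℤ, ∫ x, (fourier k x : ℂ) ∂(ν : Measure UnitAddCircle) =
        c.toReal * corr P τ a k := by
      intro k
      let fB : UnitAddCircle →ᵇ ℂ := BoundedContinuousFunction.ofNormedAddCommGroup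
        (fun x => (fourier k x : ℂ)) (fourier k).continuous 1 fun x => (norm_fourier_apply k x).le
      have h1 := hν' fB
      have h2 : Tendsto (fun N => ∫ x, (fourier k x : ℂ) ∂(μs N : Measure UnitAddCircle))
          (Filter.hyperfilter ℕ : Filter ℕ)
          (𝓝 (∫ x, (fourier k x : ℂ) ∂(ν : Measure UnitAddCircle))) := h1
      have h3 : ∀ N, ∫ x, (fourier k x : ℂ) ∂(μs N : Measure UnitAddCircle) =
          c.toReal * (corr P τ a k * (cnt (N + 1) k / ((N + 1 : ℕ) : ℂ))) := by
        intro N
        have : (μs N : Measure UnitAddCircle) = c • M N := rfl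
        rw [this, integral_smul_measure]
        simp only [hM]
        rw [integral_fourier_fejMeasure hτ ha, Complex.real_smul]
      simp only [h3] at h2
      have h4 : Tendsto (fun N : ℕ => (c.toReal : ℂ) * (corr P τ a k *
          (cnt (N + 1) k / ((N + 1 : ℕ) : ℂ)))) (Filter.hyperfilter ℕ : Filter ℕ)
          (𝓝 (c.toReal * (corr P τ a k * 1))) :=
        (((tendsto_cnt k).const_mul _).const_mul _).mono_left hle
      rw [mul_one] at h4
      exact tendsto_nhds_unique h2 h4
    refine ⟨(ENNReal.ofReal r0) • (ν : Measure UnitAddCircle), ?_, fun k => ?_⟩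
    · exact Measure.smul_finite _ ENNReal.ofReal_ne_top
    · rw [integral_smul_measure, hlim k, ENNReal.toReal_ofReal hr0n, Complex.real_smul, ← mul_assoc]
      have : (r0 : ℂ) * (c.toReal : ℂ) = 1 := by
        rw [hc, ENNReal.toReal_inv, ENNReal.toReal_ofReal hr0n, Complex.ofReal_inv]
        exact mul_inv_cancel₀ (by exact_mod_cast hpos.ne')
      rw [this, one_mul]
      rfl

end HostSn.H84
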