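import Pool.Agent.Lib.MP_8a5982_an.HO.H84.W
import Pool.Agent.Lib.MP_8a5982_an.HO.H84.Cover

/-!
# The measure-theoretic Host lemma
-/

open MeasureTheory Set Filter Topology ProbabilityTheory
open scoped ENNReal NNReal

set_option linter.unusedSectionVars false

namespace HostSn.H84

section comb

variable {G : Type*} [AddCommGroup G] [MeasurableSpace G] [MeasurableAdd₂ G] [MeasurableNeg G]

theorem prod_real_apply {α b : Measure G} [IsProbabilityMeasure α] [IsProbabilityMeasure b]
    {S : Set (G × G)} (hS : MeasurableSet S) :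
    (α.prod b).real S = ∫ x, b.real (Prod.mk x ⁻¹' S) ∂α := by
  have h1 : Measurable fun x => b (Prod.mk x ⁻¹' S) := measurable_measure_prodMk_left hS
  rw [Measure.real, Measure.prod_apply hS]
  have h2 := integral_toReal (μ := α) h1.aemeasurable
    (Eventually.of_forall fun x => measure_lt_top b _)
  rw [← h2]
  rfl

theorem prod_real_apply_symm {α b : Measure G} [IsProbabilityMeasure α] [IsProbabilityMeasure b]
    {S : Set (G × G)} (hS : MeasurableSet S) :
    (α.prod b).real S = ∫ y, α.real ((fun x => (x, y)) ⁻¹' S) ∂b := by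
  have h1 : Measurable fun y => α ((fun x => (x, y)) ⁻¹' S) := measurable_measure_prodMk_right hS
  rw [Measure.real, Measure.prod_apply_symm hS]
  have h2 := integral_toReal (μ := b) h1.aemeasurable
    (Eventually.of_forall fun x => measure_lt_top α _)
  rw [← h2]
  rfl

theorem measurable_real_left {b : Measure G} [IsProbabilityMeasure b]
    {S : Set (G × G)} (hS : MeasurableSet S) : Measurable fun x => b.real (Prod.mk x ⁻¹' S) :=
  (measurable_measure_prodMk_left hS).ennreal_toReal

theorem measurable_real_right {b : Measure G} [IsProbabilityMeasure b]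
    {S : Set (G × G)} (hS : MeasurableSet S) :
    Measurable fun y => b.real ((fun x => (x, y)) ⁻¹' S) :=
  (measurable_measure_prodMk_right hS).ennreal_toReal

theorem tv_comb {α b : Measure G} [IsProbabilityMeasure α] [IsProbabilityMeasure b]
    {E : Set G} (hE : b Eᶜ = 0) {w : G} {ε : ℝ} (h1 : ∀ y ∈ E, TV α (y - w) ε) {s : G}
    (h2 : TV b s ε) : TV α s (3 * ε) := by
  have hε : 0 ≤ ε := (abs_nonneg _).trans (h2 ∅ MeasurableSet.empty)
  have hφ : Measurable fun p : G × G => p.1 + (p.2 - w) := by
    have : (fun p : G × G => p.1 + (p.2 - w)) = fun p => p.1 + (p.2 + -w) := by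
      ext p; rw [sub_eq_add_neg]
    rw [this]
    exact measurable_fst.add (measurable_snd.add_const _)
  set m : Set G → ℝ := fun A => (α.prod b).real ((fun p : G × G => p.1 + (p.2 - w)) ⁻¹' A) with hm
  have hA1 : ∀ A, MeasurableSet A → |m A - α.real A| ≤ ε := by
    intro A hA
    have e1 : m A = ∫ y, α.real ((fun x => x + (y - w)) ⁻¹' A) ∂b :=
      prod_real_apply_symm (hφ hA)
    have e2 : α.real A = ∫ _, α.real A ∂b := by simp
    rw [e1, e2, ← integral_sub]
    · have h3 := norm_integral_le_of_norm_le_const (μ := b)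
        (f := fun y => α.real ((fun x => x + (y - w)) ⁻¹' A) - α.real A) (C := ε) ?_
      · simpa using h3
      · have h4 : ∀ᵐ y ∂b, y ∈ E := by rw [ae_iff]; exact hE
        filter_upwards [h4] with y hy
        exact h1 y hy A hA
    · refine Integrable.of_bound (C := 1) (measurable_real_right (hφ hA)).aestronglyMeasurable ?_
      exact Eventually.of_forall fun y => by
        rw [Real.norm_of_nonneg measureReal_nonneg]; exact measureReal_le_one
    · exact integrable_const _
  have hA2 : ∀ A, MeasurableSet A → |m ((fun x => x + s) ⁻¹' A) - m A| ≤ ε := by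
    intro A hA
    have hAs : MeasurableSet ((fun x => x + s) ⁻¹' A) := measurable_add_const s hA
    have e0 : ∀ a, (fun y => y + s) ⁻¹' ((fun y => a + (y - w)) ⁻¹' A) =
        Prod.mk a ⁻¹' ((fun p : G × G => p.1 + (p.2 - w)) ⁻¹' ((fun x => x + s) ⁻¹' A)) := by
      intro a
      ext y
      simp only [mem_preimage]
      have : a + (y - w) + s = a + (y + s - w) := by abel
      rw [this]
    have e1 : m ((fun x => x + s) ⁻¹' A) =
        ∫ a, b.real ((fun y => y + s) ⁻¹' ((fun y => a + (y - w)) ⁻¹' A)) ∂α := by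
      simp only [e0]
      exact prod_real_apply (α := α) (b := b) (hφ hAs)
    have e2 : m A = ∫ a, b.real ((fun y => a + (y - w)) ⁻¹' A) ∂α :=
      prod_real_apply (α := α) (b := b) (hφ hA)
    rw [e1, e2, ← integral_sub]
    · have h3 := norm_integral_le_of_norm_le_const (μ := α)
        (f := fun a => b.real ((fun y => y + s) ⁻¹' ((fun y => a + (y - w)) ⁻¹' A)) -
          b.real ((fun y => a + (y - w)) ⁻¹' A)) (C := ε) ?_
      · simpa using h3
      · refine Eventually.of_forall fun a => ?_
        exact h2 _ (by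
          have : Measurable fun y => a + (y - w) := hφ.comp measurable_prodMk_left
          exact this hA)
    · refine Integrable.of_bound (C := 1) ?_ ?_
      · simp only [e0]
        exact (measurable_real_left (hφ hAs)).aestronglyMeasurable
      · exact Eventually.of_forall fun y => by
          rw [Real.norm_of_nonneg measureReal_nonneg]; exact measureReal_le_one
    · refine Integrable.of_bound (C := 1) (measurable_real_left (hφ hA)).aestronglyMeasurable ?_
      exact Eventually.of_forall fun y => by
        rw [Real.norm_of_nonneg measureReal_nonneg]; exact measureReal_le_one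
  intro A hA
  have hAs : MeasurableSet ((fun x => x + s) ⁻¹' A) := measurable_add_const s hA
  have k1 := abs_le.1 (hA1 A hA)
  have k2 := abs_le.1 (hA1 _ hAs)
  have k3 := abs_le.1 (hA2 A hA)
  rw [abs_le]
  constructor <;> linarith [k1.1, k1.2, k2.1, k2.2, k3.1, k3.2]

end comb

section host

local instance : Fact ((0 : ℝ) < 1) := ⟨one_pos⟩

/-- the kernel `x ↦` law of `-(x + y)`, `y ∼ κ x` -/
noncomputable def refl (κ : Kernel UnitAddCircle UnitAddCircle) : Kernel UnitAddCircle UnitAddCircle :=
  (Kernel.id ×ₖ κ).map (fun p => -(p.1 + p.2))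

instance (κ : Kernel UnitAddCircle UnitAddCircle) [IsMarkovKernel κ] : IsMarkovKernel (refl κ) := by
  unfold refl
  exact Kernel.IsMarkovKernel.map _ (by fun_prop)

theorem refl_apply (κ : Kernel UnitAddCircle UnitAddCircle) [IsMarkovKernel κ] (x : UnitAddCircle) {A : Set UnitAddCircle}
    (hA : MeasurableSet A) : refl κ x A = κ x ((fun y => -(x + y)) ⁻¹' A) := by
  unfold refl
  have hm : Measurable fun p : UnitAddCircle × UnitAddCircle => -(p.1 + p.2) := by fun_prop
  rw [Kernel.map_apply _ hm, Measure.map_apply hm hA, Kernel.prod_apply, Kernel.id_apply,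
    Measure.prod_apply (hm hA), lintegral_dirac']
  · rfl
  · exact measurable_measure_prodMk_left (hm hA)

/-- translation cover -/
theorem translation_cover (θ : Measure (UnitAddCircle × UnitAddCircle)) [IsFiniteMeasure θ] (σ₁ σ₂ σ₃ : Measure UnitAddCircle)
    [IsFiniteMeasure σ₁] [IsFiniteMeasure σ₂] [IsFiniteMeasure σ₃]
    (h12 : θ ≪ σ₁.prod σ₂)
    (h13 : θ.map (fun p => (p.1, -(p.1 + p.2))) ≪ σ₁.prod σ₃) {ε : ℝ} (hε : 0 < ε) :
    CC θ.fst (fun x x' => TV (θ.condKernel x) (x - x') ε) := by
  set κ := θ.condKernel with hκ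
  have hdis : θ.fst ⊗ₘ κ = θ := θ.disintegrate κ
  have h1 : ∀ᵐ x ∂θ.fst, κ x ≪ σ₂ := by
    rw [← hdis, ← Measure.compProd_const] at h12
    simpa using h12.kernel_of_compProd
  have hΦ : Measurable fun p : UnitAddCircle × UnitAddCircle => (p.1, -(p.1 + p.2)) := by fun_prop
  have h2 : θ.fst ⊗ₘ (refl κ) = θ.map (fun p => (p.1, -(p.1 + p.2))) := by
    ext S hS
    rw [Measure.compProd_apply hS, Measure.map_apply hΦ hS]
    conv_rhs => rw [← hdis, Measure.compProd_apply (hΦ hS)]
    refine lintegral_congr fun x => ?_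
    rw [refl_apply κ x (measurable_prodMk_left hS)]
    rfl
  have h3 : ∀ᵐ x ∂θ.fst, refl κ x ≪ σ₃ := by
    rw [← h2, ← Measure.compProd_const] at h13
    simpa using h13.kernel_of_compProd
  have c1 := kernel_cover κ θ.fst σ₂ h1 (ε := ε / 2) (by positivity)
  have c2 := kernel_cover (refl κ) θ.fst σ₃ h3 (ε := ε / 2) (by positivity)
  refine (c1.inter c2).mono ?_
  rintro x x' ⟨k1, k2⟩ A hA
  have hm : Measurable fun z : UnitAddCircle => -x' - z := by fun_prop
  have k3 := k2 ((fun z => -x' - z) ⁻¹' A) (hm hA)
  have k4 := k1 A hA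
  have e1 : (refl κ x).real ((fun z => -x' - z) ⁻¹' A) =
      (κ x).real ((fun y => y + (x - x')) ⁻¹' A) := by
    rw [Measure.real, refl_apply κ x (hm hA), Measure.real]
    congr 2
    ext y
    simp only [mem_preimage]
    have : -x' - -(x + y) = y + (x - x') := by abel
    rw [this]
  have e2 : (refl κ x').real ((fun z => -x' - z) ⁻¹' A) = (κ x').real A := by
    rw [Measure.real, refl_apply κ x' (hm hA), Measure.real]
    congr 2
    ext y
    simp only [mem_preimage]
    have : -x' - -(x' + y) = y := by abel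
    rw [this]
  rw [e1, e2] at k3
  have k5 := abs_le.1 k3
  have k6 := abs_le.1 k4
  rw [abs_le]
  constructor <;> linarith [k5.1, k5.2, k6.1, k6.2]

/-- core form: the first coordinate is the singular one -/
theorem host_core (θ : Measure (UnitAddCircle × UnitAddCircle)) [IsFiniteMeasure θ] (σ₁ σ₂ σ₃ : Measure UnitAddCircle)
    [IsFiniteMeasure σ₁] [IsFiniteMeasure σ₂] [IsFiniteMeasure σ₃]
    (h12 : θ ≪ σ₁.prod σ₂)
    (h13 : θ.map (fun p => (p.1, -(p.1 + p.2))) ≪ σ₁.prod σ₃)
    (h23 : θ.map (fun p => (p.2, -(p.1 + p.2))) ≪ σ₂.prod σ₃)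
    (hna : NullSingletonClass σ₁) (hs : σ₁ ⟂ₘ volume) : θ = 0 := by
  set θs := θ.map Prod.swap with hθs
  have : IsFiniteMeasure θs := by rw [hθs]; infer_instance
  set η := θs.condKernel with hη
  have hdis : θs.fst ⊗ₘ η = θs := θs.disintegrate η
  have hs21 : θs ≪ σ₂.prod σ₁ := by
    have := h12.map (f := Prod.swap) measurable_swap
    rwa [Measure.prod_swap] at this
  have hs23 : θs.map (fun p => (p.1, -(p.1 + p.2))) ≪ σ₂.prod σ₃ := by
    rw [hθs, Measure.map_map (by fun_prop) measurable_swap]
    refine Measure.AbsolutelyContinuous.trans (Measure.absolutelyContinuous_of_eq ?_) h23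
    congr 1
    ext p <;> simp [add_comm]
  -- (a): cells for `η`
  have ha : ∀ m : ℕ, CC θs.fst (fun y y' => TV (η y) (y - y') (1 / (m + 1 : ℝ))) := fun m =>
    translation_cover θs σ₂ σ₁ σ₃ hs21 hs23 (by positivity)
  choose E hEm hE0 hE using ha
  -- (b): cells for the restrictions
  have hb : ∀ m k : ℕ, CC (θ.restrict (univ ×ˢ E m k)).fst (fun x x' =>
      ((θ.restrict (univ ×ˢ E m k)).condKernel x) (E m k)ᶜ = 0 ∧
      TV ((θ.restrict (univ ×ˢ E m k)).condKernel x) (x - x') (1 / (m + 1 : ℝ))) := by
    intro m k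
    set θE := θ.restrict (univ ×ˢ E m k) with hθE
    have hle : θE ≪ θ := Measure.absolutelyContinuous_of_le Measure.restrict_le_self
    have c1 := translation_cover θE σ₁ σ₂ σ₃ (hle.trans h12)
      ((hle.map (by fun_prop)).trans h13) (ε := 1 / (m + 1 : ℝ)) (by positivity)
    have hdisE : θE.fst ⊗ₘ θE.condKernel = θE := θE.disintegrate _
    have h0 : θE (univ ×ˢ (E m k)ᶜ) = 0 := by
      rw [hθE, Measure.restrict_apply (MeasurableSet.univ.prod (hEm m k).compl)]
      have : (univ ×ˢ (E m k)ᶜ ∩ univ ×ˢ E m k : Set (UnitAddCircle × UnitAddCircle)) = ∅ := by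
        ext p
        simp
      rw [this, measure_empty]
    rw [← hdisE, Measure.compProd_apply_prod MeasurableSet.univ (hEm m k).compl,
      Measure.restrict_univ, lintegral_eq_zero_iff (Kernel.measurable_coe _ (hEm m k).compl)] at h0
    have c2 := CC.of_ae (μ := θE.fst) h0
    exact (c2.inter c1).mono fun x x' h => ⟨h.1.1, h.2⟩
  choose H hHm hH0 hH using hb
  -- almost every `w` is good
  have hac : ∀ᵐ w ∂θs.fst, η w ≪ σ₁ := by
    rw [← hdis, ← Measure.compProd_const] at hs21
    simpa using hs21.kernel_of_compProd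
  have hcov : ∀ᵐ w ∂θs.fst, ∀ m, ∃ k, w ∈ E m k := by
    rw [ae_all_iff]
    intro m
    rw [ae_iff]
    refine measure_mono_null ?_ (hE0 m)
    intro w hw
    simpa using hw
  have hnull : ∀ᵐ w ∂θs.fst, ∀ m k, w ∈ E m k → η w (⋃ j, H m k j)ᶜ = 0 := by
    rw [ae_all_iff]
    intro m
    rw [ae_all_iff]
    intro k
    have hN : MeasurableSet (⋃ j, H m k j)ᶜ := (MeasurableSet.iUnion (hHm m k)).compl
    have h0 := hH0 m k
    have h1 : (θ.restrict (univ ×ˢ E m k)).fst (⋃ j, H m k j)ᶜ =
        ∫⁻ w in E m k, η w (⋃ j, H m k j)ᶜ ∂θs.fst := by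
      rw [← Measure.compProd_apply_prod (hEm m k) hN, hdis, Measure.fst_apply hN,
        Measure.restrict_apply (measurable_fst hN), hθs,
        Measure.map_apply measurable_swap ((hEm m k).prod hN)]
      congr 1
      ext p
      simp [and_comm]
    rw [h1, lintegral_eq_zero_iff (Kernel.measurable_coe _ hN)] at h0
    have h2 := (ae_restrict_iff' (hEm m k)).1 h0
    filter_upwards [h2] with w hw hwE using hw hwE
  have hfalse : ∀ᵐ w ∂θs.fst, False := by
    filter_upwards [hac, hcov, hnull] with w h1 h2 h3
    have hsep : Sep (η w) := by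
      intro ε hε
      obtain ⟨m, hm⟩ := exists_nat_gt (3 / ε)
      have hm1 : 3 * (1 / (m + 1 : ℝ)) ≤ ε := by
        have hm0 : (0 : ℝ) < m + 1 := by positivity
        rw [mul_one_div, div_le_iff₀ hm0]
        have := (div_lt_iff₀ hε).1 hm
        nlinarith
      obtain ⟨k, hk⟩ := h2 m
      refine ⟨H m k, hHm m k, h3 m k hk, ?_⟩
      intro j x hx x' hx'
      have k1 := hH m k j x hx x' hx'
      refine (tv_comb k1.1 (w := w) ?_ k1.2).mono hm1
      intro y hy
      have k2 := (hE m k w hk y hy).neg
      rwa [neg_sub] at k2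
    have : NullSingletonClass (η w) := ⟨fun x => h1 (measure_singleton x)⟩
    have h4 := hsep.absolutelyContinuous
    have h5 : η w = 0 :=
      Measure.eq_zero_of_absolutelyContinuous_of_mutuallySingular h4
        (hs.mono_ac h1 Measure.AbsolutelyContinuous.rfl)
    have h6 : η w univ = 1 := measure_univ
    rw [h5] at h6
    simp at h6
  have h7 : θs.fst = 0 := by
    have := ae_iff.1 hfalse
    simpa using this
  have h8 : θs = 0 := by
    rw [← hdis, h7]
    simp
  have h9 : θ univ = 0 := by
    have : θs univ = 0 := by rw [h8]; simp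
    rwa [hθs, Measure.map_apply measurable_swap MeasurableSet.univ, preimage_univ] at this
  simpa using h9

/-- **Host's lemma**, measure form: the third coordinate is the singular one. -/
theorem hostlem (m1 m2 m3 : Measure UnitAddCircle) [IsFiniteMeasure m1] [IsFiniteMeasure m2]
    [IsFiniteMeasure m3] (θ : Measure (UnitAddCircle × UnitAddCircle)) [IsFiniteMeasure θ]
    (h12 : θ ≪ m1.prod m2)
    (h13 : θ.map (fun p => (p.1, -(p.1 + p.2))) ≪ m1.prod m3)
    (h23 : θ.map (fun p => (p.2, -(p.1 + p.2))) ≪ m2.prod m3)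
    (hc : NullSingletonClass m3) (hs : m3 ⟂ₘ (volume : Measure UnitAddCircle)) : θ = 0 := by
  set T : UnitAddCircle × UnitAddCircle → UnitAddCircle × UnitAddCircle :=
    fun p => (-(p.1 + p.2), p.2) with hT
  have hTm : Measurable T := by fun_prop
  have key : θ.map T = 0 := by
    refine host_core (θ.map T) m3 m2 m1 ?_ ?_ ?_ hc hs
    · have h := h23.map (f := Prod.swap) measurable_swap
      rw [Measure.prod_swap, Measure.map_map measurable_swap (by fun_prop)] at h
      exact h
    · have h := h13.map (f := Prod.swap) measurable_swap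
      rw [Measure.prod_swap, Measure.map_map measurable_swap (by fun_prop)] at h
      rw [Measure.map_map (by fun_prop) hTm]
      refine Measure.AbsolutelyContinuous.trans (Measure.absolutelyContinuous_of_eq ?_) h
      congr 1
      ext p <;> simp [hT]
    · have h := h12.map (f := Prod.swap) measurable_swap
      rw [Measure.prod_swap] at h
      rw [Measure.map_map (by fun_prop) hTm]
      refine Measure.AbsolutelyContinuous.trans (Measure.absolutelyContinuous_of_eq ?_) h
      congr 1
      ext p <;> simp [hT]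
  have h1 : θ univ = 0 := by
    have h2 : (θ.map T) univ = 0 := by rw [key]; simp
    rwa [Measure.map_apply hTm MeasurableSet.univ, preimage_univ] at h2
  simpa using h1

end host

end HostSn.H84
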