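import Mathlib

/-!
# Lemma W (Weil-type argument)

If `ν` is a probability measure on the circle without atoms and the map `t ↦ δ_t * ν` is
`ν`-essentially separable in total variation, then `ν` is absolutely continuous.
-/

open MeasureTheory Set Filter Topology

set_option linter.unusedSectionVars false

namespace HostSn.H84

/-- `TV ν t ε`: the translate of `ν` by `t` is within `ε` of `ν`, set-wise. -/
def TV {G : Type*} [AddGroup G] [MeasurableSpace G] (ν : Measure G) (t : G) (ε : ℝ) : Prop :=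
  ∀ A : Set G, MeasurableSet A → |ν.real ((fun x => x + t) ⁻¹' A) - ν.real A| ≤ ε

section basic

set_option linter.unusedSectionVars false

variable {G : Type*} [AddCommGroup G] [MeasurableSpace G] [MeasurableAdd₂ G]
  {ν : Measure G}

theorem TV.neg {t : G} {ε : ℝ} (h : TV ν t ε) : TV ν (-t) ε := by
  intro A hA
  have h1 := h ((fun x => x + -t) ⁻¹' A) ((measurable_add_const (-t)) hA)
  have e : (fun x : G => x + t) ⁻¹' ((fun x => x + -t) ⁻¹' A) = A := by
    ext x; simp
  rw [e, abs_sub_comm] at h1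
  exact h1

theorem TV.add {s t : G} {ε δ : ℝ} (hs : TV ν s ε) (ht : TV ν t δ) : TV ν (s + t) (ε + δ) := by
  intro A hA
  have h1 := hs ((fun x => x + t) ⁻¹' A) ((measurable_add_const t) hA)
  have e : (fun x : G => x + s) ⁻¹' ((fun x => x + t) ⁻¹' A) = (fun x => x + (s + t)) ⁻¹' A := by
    ext x; simp [add_assoc]
  rw [e] at h1
  have h2 := ht A hA
  calc _ = |(ν.real ((fun x => x + (s + t)) ⁻¹' A) - ν.real ((fun x => x + t) ⁻¹' A))
        + (ν.real ((fun x => x + t) ⁻¹' A) - ν.real A)| := by ring_nf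
    _ ≤ _ := (abs_add_le _ _).trans (add_le_add h1 h2)

theorem TV.mono {t : G} {ε δ : ℝ} (h : TV ν t ε) (hd : ε ≤ δ) : TV ν t δ :=
  fun A hA => (h A hA).trans hd

theorem TV.zero {ε : ℝ} (h : 0 ≤ ε) : TV ν 0 ε := by
  intro A hA
  simp [h]

end basic

section closed

variable {G : Type*} [AddCommGroup G] [TopologicalSpace G] [IsTopologicalAddGroup G]
  [MeasurableSpace G] [BorelSpace G] [MeasurableAdd₂ G]
  {ν : Measure G} [IsProbabilityMeasure ν] [ν.OuterRegular]

theorem TV.of_tendsto {t : ℕ → G} {s : G} {ε : ℝ} (ht : Tendsto t atTop (𝓝 s))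
    (h : ∀ n, TV ν (t n) ε) : TV ν s ε := by
  have hε : 0 ≤ ε := (abs_nonneg _).trans (h 0 ∅ MeasurableSet.empty)
  -- open sets
  have hopen : ∀ U : Set G, IsOpen U → ν.real ((fun x => x + s) ⁻¹' U) ≤ ν.real U + ε := by
    intro U hU
    set W : ℕ → Set G := fun N => ⋂ n ≥ N, (fun x => x + t n) ⁻¹' U with hW
    have hmono : Monotone W := by
      intro a b hab x hx
      simp only [hW, mem_iInter] at hx ⊢
      intro n hn
      exact hx n (le_trans hab hn)
    have hsub : (fun x => x + s) ⁻¹' U ⊆ ⋃ N, W N := by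
      intro x hx
      have h1 : Tendsto (fun n => x + t n) atTop (𝓝 (x + s)) := tendsto_const_nhds.add ht
      have h2 := h1.eventually (hU.mem_nhds hx)
      obtain ⟨N, hN⟩ := eventually_atTop.1 h2
      refine mem_iUnion.2 ⟨N, ?_⟩
      simp only [hW, mem_iInter]
      exact fun n hn => hN n hn
    have h3 : ν (⋃ N, W N) ≤ ENNReal.ofReal (ν.real U + ε) := by
      rw [hmono.measure_iUnion]
      refine iSup_le fun N => ?_
      have h4 : W N ⊆ (fun x => x + t N) ⁻¹' U := by
        intro x hx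
        simp only [hW, mem_iInter] at hx
        exact hx N le_rfl
      refine (measure_mono h4).trans ?_
      rw [← ENNReal.ofReal_toReal (measure_ne_top ν _)]
      refine ENNReal.ofReal_le_ofReal ?_
      have h5 := h N U hU.measurableSet
      have h6 := (abs_le.1 h5).2
      simp only [Measure.real] at h6 ⊢
      linarith
    have h7 : ν ((fun x => x + s) ⁻¹' U) ≤ ENNReal.ofReal (ν.real U + ε) :=
      (measure_mono hsub).trans h3
    exact ENNReal.toReal_le_of_le_ofReal (by positivity) h7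
  -- all measurable sets, one side
  have hall : ∀ A : Set G, MeasurableSet A → ν.real ((fun x => x + s) ⁻¹' A) ≤ ν.real A + ε := by
    intro A hA
    refine le_of_forall_pos_le_add fun η hη => ?_
    obtain ⟨U, hAU, hUo, hU⟩ := A.exists_isOpen_lt_add (measure_ne_top ν A)
      (ε := ENNReal.ofReal η) (by simpa using hη)
    have h1 : ν.real U ≤ ν.real A + η := by
      have h2 : ν U ≤ ENNReal.ofReal (ν.real A + η) := by
        rw [ENNReal.ofReal_add (by positivity) hη.le, Measure.real,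
          ENNReal.ofReal_toReal (measure_ne_top ν _)]
        exact hU.le
      exact ENNReal.toReal_le_of_le_ofReal (by positivity) h2
    have h3 : ν.real ((fun x => x + s) ⁻¹' A) ≤ ν.real ((fun x => x + s) ⁻¹' U) :=
      measureReal_mono (preimage_mono hAU)
    have h4 := hopen U hUo
    linarith
  intro A hA
  rw [abs_le]
  constructor
  · have h1 := hall Aᶜ hA.compl
    rw [preimage_compl, measureReal_compl (hA.preimage (measurable_add_const s)),
      measureReal_compl hA] at h1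
    linarith
  · linarith [hall A hA]

end closed

section weil

local instance factOne : Fact ((0 : ℝ) < 1) := ⟨one_pos⟩

/-- The hypothesis of Lemma W. -/
def Sep (ν : Measure UnitAddCircle) : Prop :=
  ∀ ε : ℝ, 0 < ε → ∃ G : ℕ → Set UnitAddCircle, (∀ k, MeasurableSet (G k)) ∧
    ν (⋃ k, G k)ᶜ = 0 ∧ ∀ k, ∀ x ∈ G k, ∀ y ∈ G k, TV ν (x - y) ε

variable {ν : Measure UnitAddCircle} [IsProbabilityMeasure ν]

/-- total boundedness -/
theorem Sep.totallyBounded (h : Sep ν) {ε : ℝ} (hε : 0 < ε) :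
    ∃ F : Finset UnitAddCircle, ∀ t, TV ν t (1 / 2) → ∃ s ∈ F, TV ν (t - s) ε := by
  classical
  obtain ⟨G, hGm, hG0, hG⟩ := h (ε / 2) (by positivity)
  -- a finite number of cells has mass > 3/4
  set W : ℕ → Set UnitAddCircle := fun N => ⋃ k ∈ Finset.range N, G k with hW
  have hWm : ∀ N, MeasurableSet (W N) := fun N => Finset.measurableSet_biUnion _ fun k _ => hGm k
  have hmono : Monotone W := by
    intro a b hab
    exact biUnion_subset_biUnion_left (by
      intro k hk
      exact Finset.mem_coe.2 (Finset.range_mono hab (Finset.mem_coe.1 hk)))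
  have hU : ⋃ N, W N = ⋃ k, G k := by
    ext x
    simp only [hW, mem_iUnion, Finset.mem_range, exists_prop]
    constructor
    · rintro ⟨N, k, _, hx⟩
      exact ⟨k, hx⟩
    · rintro ⟨k, hx⟩
      exact ⟨k + 1, k, Nat.lt_succ_self k, hx⟩
  have h1 : ν (⋃ N, W N) = 1 := by
    rw [hU]
    exact (prob_compl_eq_zero_iff (MeasurableSet.iUnion hGm)).1 hG0
  have h2 : Tendsto (fun N => ν (W N)) atTop (𝓝 1) := by
    rw [← h1]
    exact tendsto_measure_iUnion_atTop hmono
  have h3 : ∃ N, (3 : ℝ) / 4 < ν.real (W N) := by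
    have h4 : ENNReal.ofReal (3 / 4) < 1 := by
      rw [← ENNReal.ofReal_one]
      exact (ENNReal.ofReal_lt_ofReal_iff one_pos).2 (by norm_num)
    obtain ⟨N, hN⟩ := (h2.eventually (lt_mem_nhds h4)).exists
    refine ⟨N, ?_⟩
    exact (ENNReal.ofReal_lt_iff_lt_toReal (by norm_num) (measure_ne_top ν _)).1 hN
  obtain ⟨N, hN⟩ := h3
  -- representatives
  let r : ℕ → UnitAddCircle := fun k => if hk : (G k).Nonempty then hk.choose else 0
  have hr : ∀ k, (G k).Nonempty → r k ∈ G k := by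
    intro k hk
    simp only [r, dif_pos hk]
    exact hk.choose_spec
  refine ⟨(Finset.range N ×ˢ Finset.range N).image (fun p => r p.1 - r p.2), ?_⟩
  intro t ht
  have h5 := ht (W N) (hWm N)
  have h6 : (1 : ℝ) / 4 < ν.real ((fun x => x + t) ⁻¹' (W N)) := by
    have := (abs_le.1 h5).1
    linarith
  have h7 : (W N ∩ (fun x => x + t) ⁻¹' (W N)).Nonempty := by
    by_contra hne
    rw [not_nonempty_iff_eq_empty] at hne
    have hdis : Disjoint (W N) ((fun x => x + t) ⁻¹' (W N)) := disjoint_iff_inter_eq_empty.2 hne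
    have h8 := measureReal_union (μ := ν) hdis ((hWm N).preimage (measurable_add_const t))
      (measure_ne_top _ _) (measure_ne_top _ _)
    have h9 : ν.real (W N ∪ (fun x => x + t) ⁻¹' (W N)) ≤ 1 := measureReal_le_one
    linarith
  obtain ⟨y, hy1, hy2⟩ := h7
  simp only [hW, mem_iUnion, Finset.mem_range, exists_prop, mem_preimage] at hy1 hy2
  obtain ⟨i, hi, hyi⟩ := hy1
  obtain ⟨j, hj, hyj⟩ := hy2
  refine ⟨r j - r i, Finset.mem_image.2 ⟨(j, i), by simp [hi, hj], rfl⟩, ?_⟩
  have h8 := hG j (y + t) hyj (r j) (hr j ⟨_, hyj⟩)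
  have h9 := hG i (r i) (hr i ⟨_, hyi⟩) y hyi
  have h10 := h8.add h9
  have e : y + t - r j + (r i - y) = t - (r j - r i) := by abel
  rw [e] at h10
  exact h10.mono (by linarith)

theorem Sep.small (h : Sep ν) {ε : ℝ} (hε : 0 < ε) :
    ∃ δ > 0, ∀ t : UnitAddCircle, ‖t‖ < δ → TV ν t (1 / 2) → TV ν t ε := by
  by_contra hcon
  push Not at hcon
  have h1 : ∀ n : ℕ, ∃ t : UnitAddCircle, ‖t‖ < 1 / (n + 1 : ℝ) ∧ TV ν t (1 / 2) ∧ ¬ TV ν t ε :=
    fun n => hcon _ (by positivity)
  choose t ht1 ht2 ht3 using h1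
  have ht0 : Tendsto t atTop (𝓝 0) := by
    rw [tendsto_zero_iff_norm_tendsto_zero]
    exact squeeze_zero (fun n => norm_nonneg _) (fun n => (ht1 n).le)
      tendsto_one_div_add_atTop_nhds_zero_nat
  obtain ⟨F, hF⟩ := h.totallyBounded (ε := ε / 2) (by positivity)
  have h2 : ∃ s ∈ F, ∃ᶠ n in atTop, TV ν (t n - s) (ε / 2) := by
    by_contra hno
    push Not at hno
    have h3 : ∀ᶠ n in atTop, ∀ s ∈ F, ¬ TV ν (t n - s) (ε / 2) := by
      rw [Filter.eventually_all_finset]
      intro s hs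
      exact hno s hs
    obtain ⟨n, hn⟩ := h3.exists
    obtain ⟨s, hs, hs'⟩ := hF (t n) (ht2 n)
    exact hn s hs hs'
  obtain ⟨s, _, hs⟩ := h2
  obtain ⟨φ, hφ, hφ'⟩ := extraction_of_frequently_atTop hs
  have h4 : Tendsto (fun n => t (φ 0) - t (φ n)) atTop (𝓝 (t (φ 0) - 0)) :=
    tendsto_const_nhds.sub (ht0.comp hφ.tendsto_atTop)
  rw [sub_zero] at h4
  have h5 : ∀ n, TV ν (t (φ 0) - t (φ n)) ε := by
    intro n
    have h6 := (hφ' 0).add (hφ' n).neg
    have e : t (φ 0) - s + -(t (φ n) - s) = t (φ 0) - t (φ n) := by abel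
    rw [e] at h6
    exact h6.mono (by linarith)
  exact ht3 _ (TV.of_tendsto h4 h5)

theorem Sep.exists_small [NullSingletonClass ν] (h : Sep ν) {ε : ℝ} (hε : 0 < ε) {η : ℝ}
    (hη : 0 < η) : ∃ t : UnitAddCircle, t ≠ 0 ∧ ‖t‖ < η ∧ TV ν t ε := by
  obtain ⟨G, hGm, hG0, hG⟩ := h ε hε
  obtain ⟨s, hsf, hs⟩ := (isCompact_univ (X := UnitAddCircle)).finite_cover_balls (e := η / 2)
    (by positivity)
  by_contra hcon
  push Not at hcon
  -- every intersection of a cell with a ball is a subsingleton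
  have h1 : ∀ k, ∀ x ∈ s, (G k ∩ Metric.ball x (η / 2)).Subsingleton := by
    intro k x _ a ha b hb
    by_contra hab
    refine hcon (a - b) (sub_ne_zero.2 hab) ?_ (hG k a ha.1 b hb.1)
    have h2 : dist a b < η / 2 + η / 2 :=
      (dist_triangle_right a b x).trans_lt (add_lt_add ha.2 hb.2)
    rw [dist_eq_norm] at h2
    linarith
  have h2 : (univ : Set UnitAddCircle) ⊆
      (⋃ k, G k)ᶜ ∪ ⋃ k, ⋃ x ∈ s, (G k ∩ Metric.ball x (η / 2)) := by
    intro y _
    by_cases hy : y ∈ ⋃ k, G k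
    · right
      obtain ⟨k, hk⟩ := mem_iUnion.1 hy
      have h3 := (hs.2) (mem_univ y)
      obtain ⟨x, hx, hyx⟩ := mem_iUnion₂.1 h3
      exact mem_iUnion.2 ⟨k, mem_iUnion₂.2 ⟨x, hx, hk, hyx⟩⟩
    · left
      exact hy
  have h3 : ν (univ : Set UnitAddCircle) = 0 := by
    refine measure_mono_null h2 (measure_union_null hG0 ?_)
    refine measure_iUnion_null fun k => ?_
    refine (measure_biUnion_null_iff hs.1.countable).2 fun x hx => ?_
    exact (h1 k x hx).measure_zero ν
  simp at h3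

theorem tv_coe_multiple {δ : ℝ} (hδ : ∀ t : UnitAddCircle, ‖t‖ < δ → TV ν t (1 / 2) →
    TV ν t (1 / 4)) {τ : ℝ} (hτ : 0 < τ) (hτ2 : TV ν (τ : UnitAddCircle) (1 / 4)) :
    ∀ m : ℕ, m * τ < δ → TV ν ((m * τ : ℝ) : UnitAddCircle) (1 / 4) := by
  intro m
  induction m with
  | zero =>
    intro _
    simpa using TV.zero (ν := ν) (ε := 1 / 4) (by norm_num)
  | succ m ih =>
    intro hm
    have h1 : (m : ℝ) * τ < δ := by
      refine lt_of_le_of_lt ?_ hm
      push_cast
      nlinarith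
    have h2 := (ih h1).add hτ2
    have e : (((m : ℝ) * τ : ℝ) : UnitAddCircle) + (τ : UnitAddCircle) =
        ((((m + 1 : ℕ) : ℝ) * τ : ℝ) : UnitAddCircle) := by
      rw [← AddCircle.coe_add]
      congr 1
      push_cast
      ring
    rw [e] at h2
    refine hδ _ ?_ (h2.mono (by norm_num))
    refine lt_of_le_of_lt ?_ hm
    rw [UnitAddCircle.norm_eq]
    refine (round_le _ 0).trans ?_
    rw [Int.cast_zero, sub_zero, abs_of_nonneg (by positivity)]

theorem exists_lift (t : UnitAddCircle) : ∃ r : ℝ, (r : UnitAddCircle) = t ∧ |r| = ‖t‖ := by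
  obtain ⟨x, rfl⟩ := QuotientAddGroup.mk_surjective t
  refine ⟨x - round x, ?_, ?_⟩
  · have h1 : ((x - (round x : ℝ) : ℝ) : UnitAddCircle) =
        (x : UnitAddCircle) - ((round x : ℝ) : UnitAddCircle) := AddCircle.coe_sub _ _ _
    rw [h1]
    have h2 : ((round x : ℝ) : UnitAddCircle) = 0 := by
      rw [AddCircle.coe_eq_zero_iff]
      exact ⟨round x, by simp⟩
    rw [h2, sub_zero]
  · exact (UnitAddCircle.norm_eq (x := x)).symm

theorem Sep.exists_delta [NullSingletonClass ν] (h : Sep ν) :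
    ∃ δ > 0, ∀ t : UnitAddCircle, ‖t‖ < δ → TV ν t (1 / 2) := by
  obtain ⟨δ, hδ0, hδ⟩ := h.small (ε := 1 / 4) (by norm_num)
  refine ⟨δ, hδ0, ?_⟩
  -- positive real multiples
  have key : ∀ r : ℝ, 0 ≤ r → r < δ → TV ν (r : UnitAddCircle) (1 / 4) := by
    intro r hr0 hr
    have hex : ∀ n : ℕ, ∃ τ : ℝ, 0 < τ ∧ τ < 1 / (n + 1 : ℝ) ∧
        TV ν (τ : UnitAddCircle) (1 / 4) := by
      intro n
      obtain ⟨t, ht0, ht1, ht2⟩ := h.exists_small (ε := 1 / 4) (by norm_num)
        (η := 1 / (n + 1 : ℝ)) (by positivity)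
      obtain ⟨x, hx, hx2⟩ := exists_lift t
      have hx0 : x ≠ 0 := by
        rintro rfl
        exact ht0 (by rw [← hx]; rfl)
      rcases lt_or_gt_of_ne hx0 with hneg | hpos
      · refine ⟨-x, by linarith, ?_, ?_⟩
        · rw [← abs_of_neg hneg, hx2]; exact ht1
        · have := ht2.neg
          rw [← hx, ← AddCircle.coe_neg] at this
          exact this
      · refine ⟨x, hpos, ?_, ?_⟩
        · rw [← abs_of_pos hpos, hx2]; exact ht1
        · rw [hx]; exact ht2
    choose τ hτ0 hτ1 hτ2 using hex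
    have hτlim : Tendsto τ atTop (𝓝 0) :=
      squeeze_zero (fun n => (hτ0 n).le) (fun n => (hτ1 n).le)
        tendsto_one_div_add_atTop_nhds_zero_nat
    set m : ℕ → ℕ := fun n => ⌊r / τ n⌋₊ with hm
    have hm1 : ∀ n, (m n : ℝ) * τ n ≤ r := by
      intro n
      have := Nat.floor_le (div_nonneg hr0 (hτ0 n).le)
      calc (m n : ℝ) * τ n ≤ (r / τ n) * τ n := by
            exact mul_le_mul_of_nonneg_right this (hτ0 n).le
        _ = r := div_mul_cancel₀ _ (hτ0 n).ne'
    have hm2 : ∀ n, r - τ n ≤ (m n : ℝ) * τ n := by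
      intro n
      have := (Nat.lt_floor_add_one (r / τ n)).le
      have h3 : r ≤ ((m n : ℝ) + 1) * τ n := by
        calc r = (r / τ n) * τ n := (div_mul_cancel₀ _ (hτ0 n).ne').symm
          _ ≤ _ := mul_le_mul_of_nonneg_right this (hτ0 n).le
      linarith
    have hlim : Tendsto (fun n => (m n : ℝ) * τ n) atTop (𝓝 r) := by
      refine tendsto_of_tendsto_of_tendsto_of_le_of_le (g := fun n => r - τ n) (h := fun _ => r)
        ?_ tendsto_const_nhds hm2 hm1
      simpa using tendsto_const_nhds.sub hτlim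
    have hlim2 : Tendsto (fun n => (((m n : ℝ) * τ n : ℝ) : UnitAddCircle)) atTop
        (𝓝 (r : UnitAddCircle)) :=
      ((AddCircle.continuous_mk' (1 : ℝ)).tendsto r).comp hlim
    exact TV.of_tendsto hlim2 fun n => tv_coe_multiple hδ (hτ0 n) (hτ2 n) (m n)
      (lt_of_le_of_lt (hm1 n) hr)
  intro t ht
  obtain ⟨r, hr, hr2⟩ := exists_lift t
  rcases le_or_gt 0 r with h0 | h0
  · have := key r h0 (by rw [← abs_of_nonneg h0, hr2]; exact ht)
    rw [hr] at this
    exact this.mono (by norm_num)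
  · have := (key (-r) (by linarith) (by rw [← abs_of_neg h0, hr2]; exact ht)).neg
    rw [AddCircle.coe_neg, neg_neg, hr] at this
    exact this.mono (by norm_num)

theorem Sep.continuous_at_zero [NullSingletonClass ν] (h : Sep ν) {ε : ℝ} (hε : 0 < ε) :
    ∃ δ > 0, ∀ t : UnitAddCircle, ‖t‖ < δ → TV ν t ε := by
  obtain ⟨δ1, h1, h1'⟩ := h.exists_delta
  obtain ⟨δ2, h2, h2'⟩ := h.small hε
  exact ⟨min δ1 δ2, lt_min h1 h2, fun t ht => h2' t (ht.trans_le (min_le_right _ _))
    (h1' t (ht.trans_le (min_le_left _ _)))⟩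

/-- **Lemma W.** -/
theorem Sep.absolutelyContinuous [NullSingletonClass ν] (h : Sep ν) :
    ν ≪ (volume : Measure UnitAddCircle) := by
  refine Measure.AbsolutelyContinuous.mk fun N hN hN0 => ?_
  -- almost every translate of `N` is `ν`-null
  have h1 : ∫⁻ t : UnitAddCircle, ν ((fun x => x + t) ⁻¹' N) = 0 := by
    have hm : MeasurableSet {p : UnitAddCircle × UnitAddCircle | p.1 + p.2 ∈ N} :=
      measurable_add hN
    have h2 : ∫⁻ t : UnitAddCircle, ν ((fun x => x + t) ⁻¹' N) =
        (ν.prod volume) {p : UnitAddCircle × UnitAddCircle | p.1 + p.2 ∈ N} := by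
      rw [Measure.prod_apply_symm hm]
      rfl
    rw [h2, Measure.prod_apply hm]
    have h3 : ∀ x : UnitAddCircle, (volume : Measure UnitAddCircle)
        (Prod.mk x ⁻¹' {p : UnitAddCircle × UnitAddCircle | p.1 + p.2 ∈ N}) = 0 := by
      intro x
      have : (Prod.mk x ⁻¹' {p : UnitAddCircle × UnitAddCircle | p.1 + p.2 ∈ N}) =
          (fun t => x + t) ⁻¹' N := rfl
      rw [this, measure_preimage_add, hN0]
    rw [lintegral_congr h3, lintegral_zero]
  have h2 : ∀ᵐ t : UnitAddCircle, ν ((fun x => x + t) ⁻¹' N) = 0 := by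
    have hmeas : Measurable fun t : UnitAddCircle => ν ((fun x => x + t) ⁻¹' N) :=
      measurable_measure_prodMk_right (measurable_add hN)
    exact (lintegral_eq_zero_iff hmeas).1 h1
  have h3 : ∀ ε : ℝ, 0 < ε → ν.real N ≤ ε := by
    intro ε hε
    obtain ⟨δ, hδ0, hδ⟩ := h.continuous_at_zero hε
    have h4 : ∃ t ∈ Metric.ball (0 : UnitAddCircle) δ, ν ((fun x => x + t) ⁻¹' N) = 0 := by
      by_contra hno
      push Not at hno
      have h5 : (volume : Measure UnitAddCircle) (Metric.ball 0 δ) = 0 :=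
        measure_mono_null (fun t ht => hno t ht) (ae_iff.1 h2)
      exact (Metric.measure_ball_pos volume (0 : UnitAddCircle) hδ0).ne' h5
    obtain ⟨t, ht, ht0⟩ := h4
    have h6 := hδ t (by simpa using ht) N hN
    rw [Measure.real, ht0] at h6
    simpa [Measure.real] using h6
  have h4 : ν.real N ≤ 0 := le_of_forall_pos_le_add fun ε hε => by simpa using h3 ε hε
  have h5 : ν.real N = 0 := le_antisymm h4 measureReal_nonneg
  rwa [measureReal_eq_zero_iff] at h5

end weil

end HostSn.H84
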